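import Pool.Agent.Lib.MP_7d5718_an.Density

set_option autoImplicit false

namespace Pool.Agent.Lib.MP_7d5718_an

open Filter Topology

theorem summable_dist (k : ℕ) : Summable (fun k' : ℕ => (1 / 4 : ℝ) ^ ((k - k') + (k' - k))) := by
  rw [← summable_nat_add_iff k]
  have h : (fun n : ℕ => (1 / 4 : ℝ) ^ ((k - (n + k)) + (n + k - k))) =
      fun n : ℕ => (1 / 4 : ℝ) ^ n := by
    ext n
    congr 1
    omega
  rw [h]
  exact summable_geometric_of_lt_one (by norm_num) (by norm_num)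

theorem tsum_dist_le (k : ℕ) : ∑' k' : ℕ, (1 / 4 : ℝ) ^ ((k - k') + (k' - k)) ≤ 3 := by
  rw [← (summable_dist k).sum_add_tsum_nat_add k]
  have h : (fun n : ℕ => (1 / 4 : ℝ) ^ ((k - (n + k)) + (n + k - k))) =
      fun n : ℕ => (1 / 4 : ℝ) ^ n := by
    ext n
    congr 1
    omega
  rw [h, tsum_geometric_of_lt_one (by norm_num) (by norm_num)]
  have h2 : ∑ i ∈ Finset.range k, (1 / 4 : ℝ) ^ ((k - i) + (i - k)) ≤ 1 / 3 := by
    have h3 : ∑ i ∈ Finset.range k, (1 / 4 : ℝ) ^ ((k - i) + (i - k)) =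
        ∑ i ∈ Finset.range k, (1 / 4 : ℝ) ^ (i + 1) := by
      rw [← Finset.sum_range_reflect]
      apply Finset.sum_congr rfl
      intro i hi
      have := Finset.mem_range.1 hi
      congr 1
      omega
    rw [h3]
    simp_rw [pow_succ]
    rw [← Finset.sum_mul, geom_sum_eq (by norm_num)]
    have h4 : (0 : ℝ) ≤ (1 / 4 : ℝ) ^ k := by positivity
    have h5 : ((1 / 4 : ℝ) ^ k - 1) / (1 / 4 - 1) * (1 / 4) = (1 - (1 / 4 : ℝ) ^ k) / 3 := by
      norm_num
      ring
    rw [h5]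
    linarith
  have h6 : (1 - 1 / 4 : ℝ)⁻¹ = 4 / 3 := by norm_num
  rw [h6]
  linarith

section

variable {𝕜 : Type*} [RCLike 𝕜] {E : Type*} [NormedAddCommGroup E] [NormedSpace 𝕜 E]

/-- The approximate-preimage property of a target vector `v`. -/
def Reach (T : E →L[𝕜] E) (v : E) : Prop :=
  ∀ ε : ℝ, 0 < ε → ∃ (w : ℕ → E) (K : ℝ), 0 ≤ K ∧ (∀ m, ‖(T ^ m) (w m) - v‖ ≤ ε) ∧
    ∀ m n, n ≠ m → ‖(T ^ n) (w m)‖ ≤ K * (1 / 4 : ℝ) ^ ((n - m) + (m - n))

theorem Reach.add {T : E →L[𝕜] E} {v v' : E} (h : Reach T v) (h' : Reach T v') :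
    Reach T (v + v') := by
  intro ε hε
  obtain ⟨w, K, hK, h1, h2⟩ := h (ε / 2) (by positivity)
  obtain ⟨w', K', hK', h1', h2'⟩ := h' (ε / 2) (by positivity)
  refine ⟨fun m => w m + w' m, K + K', by positivity, ?_, ?_⟩
  · intro m
    have : (T ^ m) (w m + w' m) - (v + v') = ((T ^ m) (w m) - v) + ((T ^ m) (w' m) - v') := by
      rw [map_add]; abel
    rw [this]
    refine (norm_add_le _ _).trans ?_
    have := h1 m
    have := h1' m
    linarith
  · intro m n hmn
    rw [map_add, add_mul]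
    exact (norm_add_le _ _).trans (add_le_add (h2 m n hmn) (h2' m n hmn))

theorem Reach.smul {T : E →L[𝕜] E} {v : E} (c : 𝕜) (h : Reach T v) : Reach T (c • v) := by
  intro ε hε
  obtain ⟨w, K, hK, h1, h2⟩ := h (ε / (‖c‖ + 1)) (by positivity)
  refine ⟨fun m => c • w m, ‖c‖ * K, by positivity, ?_, ?_⟩
  · intro m
    rw [map_smul, ← smul_sub, norm_smul]
    have h3 := h1 m
    rw [le_div_iff₀ (by positivity)] at h3
    have := norm_nonneg ((T ^ m) (w m) - v)
    nlinarith [norm_nonneg c]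
  · intro m n hmn
    rw [map_smul, norm_smul, mul_assoc]
    exact mul_le_mul_of_nonneg_left (h2 m n hmn) (norm_nonneg _)

theorem Reach.zero (T : E →L[𝕜] E) : Reach T 0 := by
  intro ε hε
  refine ⟨fun _ => 0, 0, le_rfl, ?_, ?_⟩
  · intro m; simp [hε.le]
  · intro m n _; simp

theorem Reach.of_closure {T : E →L[𝕜] E} {v : E} (h : v ∈ closure {u | Reach T u}) :
    Reach T v := by
  intro ε hε
  obtain ⟨u, hu, hd⟩ := Metric.mem_closure_iff.1 h (ε / 2) (by positivity)
  obtain ⟨w, K, hK, h1, h2⟩ := hu (ε / 2) (by positivity)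
  refine ⟨w, K, hK, ?_, h2⟩
  intro m
  have h3 : (T ^ m) (w m) - v = ((T ^ m) (w m) - u) - (v - u) := by abel
  rw [h3]
  refine (norm_sub_le _ _).trans ?_
  have := h1 m
  rw [dist_eq_norm] at hd
  linarith

/-- The closed subspace of reachable vectors. -/
def reachSub (T : E →L[𝕜] E) : Submodule 𝕜 E where
  carrier := {u | Reach T u}
  add_mem' := fun h h' => h.add h'
  zero_mem' := Reach.zero T
  smul_mem' := fun c _ h => h.smul c

theorem reachSub_closed (T : E →L[𝕜] E) : IsClosed (reachSub T : Set E) := by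
  apply isClosed_of_closure_subset
  intro v hv
  exact Reach.of_closure hv

variable [CompleteSpace E]

/-- **A frequent hypercyclicity criterion** with approximate preimages. -/
theorem fhc_of_reach [TopologicalSpace.SeparableSpace E] (T : E →L[𝕜] E)
    (hT : ∀ v, Reach T v) : FrequentlyHypercyclic (T : E → E) := by
  classical
  set V : ℕ → E := fun j => TopologicalSpace.denseSeq E (Nat.unpair j).1 with hV
  have hchoice : ∀ j : ℕ, ∃ (w : ℕ → E) (K : ℝ), 0 ≤ K ∧
      (∀ m, ‖(T ^ m) (w m) - V j‖ ≤ (1 / 2 : ℝ) ^ j) ∧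
      ∀ m n, n ≠ m → ‖(T ^ n) (w m)‖ ≤ K * (1 / 4 : ℝ) ^ ((n - m) + (m - n)) :=
    fun j => hT (V j) _ (by positivity)
  choose w K hK0 hw1 hw2 using hchoice
  have hN : ∀ j : ℕ, ∃ N : ℕ, j ≤ N ∧ K j ≤ 4 ^ N := by
    intro j
    obtain ⟨n, hn⟩ := pow_unbounded_of_one_lt (K j) (by norm_num : (1 : ℝ) < 4)
    exact ⟨max j n, le_max_left _ _, hn.le.trans
      (pow_le_pow_right₀ (by norm_num) (le_max_right _ _))⟩
  choose Nn hN1 hN2 using hN
  have hKN : ∀ j r : ℕ, K j * (1 / 4 : ℝ) ^ (Nn j + r) ≤ (1 / 4 : ℝ) ^ r := by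
    intro j r
    rw [pow_add, ← mul_assoc]
    apply mul_le_of_le_one_left (by positivity)
    calc K j * (1 / 4 : ℝ) ^ Nn j ≤ 4 ^ Nn j * (1 / 4 : ℝ) ^ Nn j :=
          mul_le_mul_of_nonneg_right (hN2 j) (by positivity)
      _ = 1 := by rw [← mul_pow]; norm_num
  set W : ℕ → E := fun k => if k = 0 then 0 else w (lab Nn k) (tm Nn k) with hWdef
  have hmono : ∀ (a b : ℕ), a ≤ b → (1 / 4 : ℝ) ^ b ≤ (1 / 4 : ℝ) ^ a := fun a b hab =>
    pow_le_pow_of_le_one (by norm_num) (by norm_num) hab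
  have hWnorm : ∀ k, ‖W k‖ ≤ (1 / 4 : ℝ) ^ k := by
    intro k
    rcases Nat.eq_zero_or_pos k with h0 | h0
    · subst h0; simp [hWdef]
    · have h1 : W k = w (lab Nn k) (tm Nn k) := by simp only [hWdef]; rw [if_neg (by omega)]
      have h2 := tm_ge Nn h0
      have h3 := hw2 (lab Nn k) (tm Nn k) 0 (by omega)
      rw [pow_zero, one_apply_eq_self] at h3
      rw [h1]
      refine h3.trans ?_
      refine le_trans ?_ (hKN (lab Nn k) k)
      apply mul_le_mul_of_nonneg_left _ (hK0 _)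
      apply hmono
      omega
  have hWsum : Summable W := by
    apply Summable.of_norm
    exact Summable.of_nonneg_of_le (fun k => norm_nonneg _) hWnorm
      (summable_geometric_of_lt_one (by norm_num) (by norm_num))
  refine ⟨∑' k, W k, ?_⟩
  -- main estimate
  have hmain : ∀ k, 1 ≤ k → ‖(T ^ (tm Nn k)) (∑' k, W k) - V (lab Nn k)‖ ≤
      3 * (1 / 2 : ℝ) ^ (lab Nn k) := by
    intro k hk
    set j := lab Nn k with hj
    set g : ℕ → E := fun k' => (T ^ (tm Nn k)) (W k') - (if k' = k then V j else 0) with hg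
    have hbound : ∀ k', ‖g k'‖ ≤ (1 / 2 : ℝ) ^ j * (1 / 4 : ℝ) ^ ((k - k') + (k' - k)) := by
      intro k'
      by_cases hkk : k' = k
      · subst hkk
        simp only [hg, if_true]
        have h1 : W k' = w j (tm Nn k') := by simp only [hWdef]; rw [if_neg (by omega)]
        rw [h1]
        simpa using hw1 j (tm Nn k')
      · simp only [hg]
        rw [if_neg hkk, sub_zero]
        rcases Nat.eq_zero_or_pos k' with h0 | h0
        · subst h0
          simp only [hWdef, if_true, map_zero, norm_zero]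
          positivity
        · have h1 : W k' = w (lab Nn k') (tm Nn k') := by
            simp only [hWdef]; rw [if_neg (by omega)]
          rw [h1]
          have hsep : Nn (lab Nn k') + (Nn j + ((k - k') + (k' - k))) ≤
              (tm Nn k - tm Nn k') + (tm Nn k' - tm Nn k) := by
            rcases Nat.lt_or_gt_of_ne hkk with h2 | h2
            · have := tm_sep Nn h0 h2
              rw [← hj] at this
              omega
            · have := tm_sep Nn hk h2
              rw [← hj] at this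
              omega
          have hne : tm Nn k ≠ tm Nn k' := by omega
          refine (hw2 (lab Nn k') (tm Nn k') (tm Nn k) hne).trans ?_
          calc K (lab Nn k') * (1 / 4 : ℝ) ^ ((tm Nn k - tm Nn k') + (tm Nn k' - tm Nn k))
              ≤ K (lab Nn k') * (1 / 4 : ℝ) ^ (Nn (lab Nn k') + (Nn j + ((k - k') + (k' - k)))) :=
                mul_le_mul_of_nonneg_left (hmono _ _ hsep) (hK0 _)
            _ ≤ (1 / 4 : ℝ) ^ (Nn j + ((k - k') + (k' - k))) := hKN _ _
            _ = (1 / 4 : ℝ) ^ (Nn j) * (1 / 4 : ℝ) ^ ((k - k') + (k' - k)) := pow_add _ _ _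
            _ ≤ (1 / 2 : ℝ) ^ j * (1 / 4 : ℝ) ^ ((k - k') + (k' - k)) := by
                apply mul_le_mul_of_nonneg_right _ (by positivity)
                calc (1 / 4 : ℝ) ^ (Nn j) ≤ (1 / 4 : ℝ) ^ j := hmono _ _ (hN1 j)
                  _ ≤ (1 / 2 : ℝ) ^ j := pow_le_pow_left₀ (by norm_num) (by norm_num) _
    have hs1 : Summable (fun k' => (T ^ (tm Nn k)) (W k')) := hWsum.mapL (T ^ (tm Nn k))
    have hs2 : HasSum (fun k' : ℕ => if k' = k then V j else 0) (V j) := hasSum_ite_eq k (V j)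
    have hgsum : HasSum g ((T ^ (tm Nn k)) (∑' k, W k) - V j) := by
      have h1 : HasSum (fun k' => (T ^ (tm Nn k)) (W k')) ((T ^ (tm Nn k)) (∑' k, W k)) :=
        hWsum.hasSum.mapL (T ^ (tm Nn k))
      exact h1.sub hs2
    rw [← hgsum.tsum_eq]
    have hsb : Summable (fun k' : ℕ => (1 / 2 : ℝ) ^ j * (1 / 4 : ℝ) ^ ((k - k') + (k' - k))) :=
      (summable_dist k).mul_left _
    have hsn : Summable (fun k' => ‖g k'‖) :=
      Summable.of_nonneg_of_le (fun _ => norm_nonneg _) hbound hsb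
    calc ‖∑' k', g k'‖ ≤ ∑' k', ‖g k'‖ := norm_tsum_le_tsum_norm hsn
      _ ≤ ∑' k' : ℕ, (1 / 2 : ℝ) ^ j * (1 / 4 : ℝ) ^ ((k - k') + (k' - k)) :=
          hsn.tsum_le_tsum hbound hsb
      _ = (1 / 2 : ℝ) ^ j * ∑' k' : ℕ, (1 / 4 : ℝ) ^ ((k - k') + (k' - k)) := tsum_mul_left
      _ ≤ (1 / 2 : ℝ) ^ j * 3 := mul_le_mul_of_nonneg_left (tsum_dist_le k) (by positivity)
      _ = 3 * (1 / 2 : ℝ) ^ j := by ring
  -- conclusion
  intro U hUo hUne
  obtain ⟨u, hu⟩ := hUne
  obtain ⟨r, hr, hball⟩ := Metric.isOpen_iff.1 hUo u hu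
  obtain ⟨a, ha⟩ := (TopologicalSpace.denseRange_denseSeq E).exists_dist_lt u
    (show 0 < r / 2 by positivity)
  obtain ⟨b, hb⟩ := exists_pow_lt_of_lt_one (show 0 < r / 6 by positivity)
    (by norm_num : (1 / 2 : ℝ) < 1)
  set j := Nat.pair a b with hjdef
  obtain ⟨δ, hδ, hdens⟩ := tm_density Nn j
  refine lowerDensity_mono_pos ?_ hδ hdens
  rintro n ⟨k, hk1, hk2, rfl⟩
  apply hball
  have h1 := hmain k hk1
  rw [hk2] at h1
  have hVj : V j = TopologicalSpace.denseSeq E a := by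
    simp only [hV, hjdef, Nat.unpair_pair]
  rw [hVj] at h1
  have hjb : (1 / 2 : ℝ) ^ j ≤ (1 / 2 : ℝ) ^ b :=
    pow_le_pow_of_le_one (by norm_num) (by norm_num) (Nat.right_le_pair a b)
  have h2 : (T : E → E)^[tm Nn k] (∑' k, W k) = (T ^ (tm Nn k)) (∑' k, W k) := by
    rw [FunLike.coe_pow_eq_iterate]
  rw [h2, Metric.mem_ball, dist_comm]
  calc dist u ((T ^ (tm Nn k)) (∑' k, W k))
      ≤ dist u (TopologicalSpace.denseSeq E a) +
        dist (TopologicalSpace.denseSeq E a) ((T ^ (tm Nn k)) (∑' k, W k)) :=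
        dist_triangle _ _ _
    _ < r / 2 + r / 2 := by
        rw [dist_comm (TopologicalSpace.denseSeq E a), dist_eq_norm ((T ^ (tm Nn k)) _)]
        have : 3 * (1 / 2 : ℝ) ^ j < r / 2 := by linarith
        linarith
    _ = r := by ring

end

end Pool.Agent.Lib.MP_7d5718_an
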