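import Pool.Agent.Lib.MP_7d5718_an.L1

set_option autoImplicit false

namespace Pool.Agent.Lib.MP_7d5718_an

/-- Start of the `j`-th passage. -/
def st (j : ℕ) : ℕ := (Nat.unpair j).1 + 1

/-- End of the `j`-th passage. -/
def en (j : ℕ) : ℕ := j + 1

theorem st_le_en (j : ℕ) : st j ≤ en j := by
  unfold st en
  have := Nat.unpair_left_le j
  omega

theorem one_le_st (j : ℕ) : 1 ≤ st j := by unfold st; omega

/-- The weights. -/
noncomputable def ome (j : ℕ) (k : ℤ) : ℝ :=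
  (1 / 4 : ℝ) ^ (k - st j).natAbs + 2 ^ (en j) * (1 / 4 : ℝ) ^ (k - en j).natAbs

/-- The weight of the zeroth coordinate. -/
noncomputable def gam (k : ℤ) : ℝ := (1 / 4 : ℝ) ^ (-k).toNat

/-- The indicator of the passage. -/
noncomputable def chi (j : ℕ) (k : ℤ) : ℝ := if (st j : ℤ) ≤ k ∧ k ≤ en j then 1 else 0

theorem pow4_le (a b c : ℕ) (h : b ≤ a + c) : (1 / 4 : ℝ) ^ a ≤ 4 ^ c * (1 / 4 : ℝ) ^ b := by
  have h1 : (1 / 4 : ℝ) ^ (a + c) ≤ (1 / 4 : ℝ) ^ b :=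
    pow_le_pow_of_le_one (by norm_num) (by norm_num) h
  have h2 : (4 : ℝ) ^ c * (1 / 4 : ℝ) ^ c = 1 := by rw [← mul_pow]; norm_num
  calc (1 / 4 : ℝ) ^ a = 4 ^ c * (1 / 4 : ℝ) ^ (a + c) := by
        rw [pow_add]
        have : (4 : ℝ) ^ c * ((1 / 4 : ℝ) ^ a * (1 / 4 : ℝ) ^ c) =
          (1 / 4 : ℝ) ^ a * ((4 : ℝ) ^ c * (1 / 4 : ℝ) ^ c) := by ring
        rw [this, h2, mul_one]
    _ ≤ 4 ^ c * (1 / 4 : ℝ) ^ b := mul_le_mul_of_nonneg_left h1 (by positivity)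

theorem pow24_le (t a b c : ℕ) (h : t + 2 * b ≤ 2 * a + 2 * c) :
    2 ^ t * (1 / 4 : ℝ) ^ a ≤ 4 ^ c * (1 / 4 : ℝ) ^ b := by
  have e1 : (1 / 4 : ℝ) ^ a = (1 / 2 : ℝ) ^ (2 * a) := by rw [pow_mul]; norm_num
  have e2 : (1 / 4 : ℝ) ^ b = (1 / 2 : ℝ) ^ (2 * b) := by rw [pow_mul]; norm_num
  have e3 : (4 : ℝ) ^ c = 2 ^ (2 * c) := by rw [pow_mul]; norm_num
  rw [e1, e2, e3]
  have h1 : (2 : ℝ) ^ (t + 2 * b) ≤ 2 ^ (2 * a + 2 * c) :=
    pow_le_pow_right₀ (by norm_num) h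
  have h2 : (2 : ℝ) ^ (2 * a) * (1 / 2 : ℝ) ^ (2 * a) = 1 := by rw [← mul_pow]; norm_num
  have h3 : (2 : ℝ) ^ (2 * b) * (1 / 2 : ℝ) ^ (2 * b) = 1 := by rw [← mul_pow]; norm_num
  have h4 : (0 : ℝ) < (1 / 2 : ℝ) ^ (2 * a) := by positivity
  have h5 : (0 : ℝ) < (1 / 2 : ℝ) ^ (2 * b) := by positivity
  calc (2 : ℝ) ^ t * (1 / 2 : ℝ) ^ (2 * a)
      = 2 ^ (t + 2 * b) * ((1 / 2 : ℝ) ^ (2 * a) * (1 / 2 : ℝ) ^ (2 * b)) := by
        rw [pow_add]
        calc (2 : ℝ) ^ t * (1 / 2 : ℝ) ^ (2 * a) = 2 ^ t * (1 / 2 : ℝ) ^ (2 * a) *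
              ((2 : ℝ) ^ (2 * b) * (1 / 2 : ℝ) ^ (2 * b)) := by rw [h3, mul_one]
          _ = _ := by ring
    _ ≤ 2 ^ (2 * a + 2 * c) * ((1 / 2 : ℝ) ^ (2 * a) * (1 / 2 : ℝ) ^ (2 * b)) :=
        mul_le_mul_of_nonneg_right h1 (by positivity)
    _ = 2 ^ (2 * c) * (1 / 2 : ℝ) ^ (2 * b) := by
        rw [pow_add]
        calc (2 : ℝ) ^ (2 * a) * 2 ^ (2 * c) * ((1 / 2 : ℝ) ^ (2 * a) * (1 / 2 : ℝ) ^ (2 * b))
            = 2 ^ (2 * c) * (1 / 2 : ℝ) ^ (2 * b) *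
              ((2 : ℝ) ^ (2 * a) * (1 / 2 : ℝ) ^ (2 * a)) := by ring
          _ = _ := by rw [h2, mul_one]

theorem gam_pos (k : ℤ) : 0 < gam k := by unfold gam; positivity

theorem gam_le_one (k : ℤ) : gam k ≤ 1 := by
  unfold gam
  exact pow_le_one₀ (by norm_num) (by norm_num)

theorem gam_nonneg_eq (k : ℤ) (hk : 0 ≤ k) : gam k = 1 := by
  unfold gam
  have : (-k).toNat = 0 := by omega
  rw [this, pow_zero]

theorem gam_pred_le (k : ℤ) : gam (k - 1) ≤ 4 * gam k := by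
  unfold gam
  have := pow4_le (-(k - 1)).toNat (-k).toNat 1 (by omega)
  simpa using this

theorem gam_le_pred (k : ℤ) : gam k ≤ 4 * gam (k - 1) := by
  unfold gam
  have := pow4_le (-k).toNat (-(k - 1)).toNat 1 (by omega)
  simpa using this

theorem ome_pos (j : ℕ) (k : ℤ) : 0 < ome j k := by unfold ome; positivity

theorem ome_pred_le (j : ℕ) (k : ℤ) : ome j (k - 1) ≤ 4 * ome j k := by
  unfold ome
  have h1 := pow4_le (k - 1 - st j).natAbs (k - st j).natAbs 1 (by omega)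
  have h2 := pow4_le (k - 1 - en j).natAbs (k - en j).natAbs 1 (by omega)
  have h3 := mul_le_mul_of_nonneg_left h2 (show (0 : ℝ) ≤ 2 ^ (en j) by positivity)
  linarith

theorem ome_le_pred (j : ℕ) (k : ℤ) : ome j k ≤ 4 * ome j (k - 1) := by
  unfold ome
  have h1 := pow4_le (k - st j).natAbs (k - 1 - st j).natAbs 1 (by omega)
  have h2 := pow4_le (k - en j).natAbs (k - 1 - en j).natAbs 1 (by omega)
  have h3 := mul_le_mul_of_nonneg_left h2 (show (0 : ℝ) ≤ 2 ^ (en j) by positivity)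
  linarith

theorem chi_nonneg (j : ℕ) (k : ℤ) : 0 ≤ chi j k := by unfold chi; split_ifs <;> norm_num

theorem chi_le_one (j : ℕ) (k : ℤ) : chi j k ≤ 1 := by unfold chi; split_ifs <;> norm_num

/-- The value of the passage indicator changes only where the weight is at least `1/4`. -/
theorem chi_diff (j : ℕ) (k : ℤ) :
    |chi j (k - 1) - chi j k| ≤ 4 * ome j k ∧ |chi j (k - 1) - chi j k| ≤ 4 * ome j (k - 1) := by
  have hse := st_le_en j
  have hse' : (st j : ℤ) ≤ en j := by exact_mod_cast hse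
  have h0 := ome_pos j k
  have h0' := ome_pos j (k - 1)
  by_cases h1 : k = st j
  · have e1 : chi j (k - 1) = 0 := by unfold chi; rw [if_neg]; omega
    have e2 : chi j k = 1 := by unfold chi; rw [if_pos]; omega
    rw [e1, e2]
    have e3 : 1 ≤ ome j k := by
      unfold ome
      have : (k - st j).natAbs = 0 := by omega
      rw [this, pow_zero]
      have : (0 : ℝ) ≤ 2 ^ en j * (1 / 4) ^ (k - ↑(en j)).natAbs := by positivity
      linarith
    have e4 := ome_le_pred j k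
    norm_num
    constructor <;> linarith
  · by_cases h2 : k - 1 = en j
    · have e1 : chi j (k - 1) = 1 := by unfold chi; rw [if_pos]; omega
      have e2 : chi j k = 0 := by unfold chi; rw [if_neg]; omega
      rw [e1, e2]
      have e3 : 1 ≤ ome j (k - 1) := by
        unfold ome
        have : (k - 1 - en j).natAbs = 0 := by omega
        rw [this, pow_zero]
        have h3 : (0 : ℝ) ≤ (1 / 4) ^ (k - 1 - ↑(st j)).natAbs := by positivity
        have h4 : (1 : ℝ) ≤ 2 ^ en j := one_le_pow₀ (by norm_num)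
        linarith
      have e4 := ome_pred_le j k
      norm_num
      constructor <;> linarith
    · have e1 : chi j (k - 1) = chi j k := by
        unfold chi
        by_cases h3 : (st j : ℤ) ≤ k ∧ k ≤ en j
        · rw [if_pos h3, if_pos]; omega
        · rw [if_neg h3, if_neg]; omega
      rw [e1, sub_self, abs_zero]
      constructor <;> linarith

variable (𝕜 : Type*) [RCLike 𝕜]

/-- Values of `S_n` on the basis. -/
noncomputable def vS (n : ℤ) (j : ℕ) : E1 𝕜 :=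
  if j = 0 then ((gam (n - 1) / gam n : ℝ) : 𝕜) • f 𝕜 0
  else ((ome j (n - 1) / ome j n : ℝ) : 𝕜) • f 𝕜 j -
    ((gam (n - 1) * (chi j (n - 1) - chi j n) / ome j n : ℝ) : 𝕜) • f 𝕜 0

/-- Values of `S_n⁻¹` on the basis. -/
noncomputable def vR (n : ℤ) (j : ℕ) : E1 𝕜 :=
  if j = 0 then ((gam n / gam (n - 1) : ℝ) : 𝕜) • f 𝕜 0
  else ((ome j n / ome j (n - 1) : ℝ) : 𝕜) • f 𝕜 j +
    ((gam n * (chi j (n - 1) - chi j n) / ome j (n - 1) : ℝ) : 𝕜) • f 𝕜 0

theorem norm_ofReal_smul_f (r : ℝ) (i : ℕ) : ‖((r : ℝ) : 𝕜) • f 𝕜 i‖ = |r| := by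
  rw [norm_smul, norm_f, mul_one, RCLike.norm_ofReal]

theorem vS_norm (n : ℤ) (j : ℕ) : ‖vS 𝕜 n j‖ ≤ 8 := by
  unfold vS
  have hg := gam_pos n
  have hg' := gam_pos (n - 1)
  have hw := ome_pos j n
  have hw' := ome_pos j (n - 1)
  split_ifs with h
  · rw [norm_ofReal_smul_f, abs_of_pos (by positivity)]
    rw [div_le_iff₀ hg]
    have := gam_pred_le n
    linarith
  · refine (norm_sub_le _ _).trans ?_
    rw [norm_ofReal_smul_f, norm_ofReal_smul_f, abs_of_pos (by positivity), abs_div, abs_mul,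
      abs_of_pos hg', abs_of_pos hw]
    have h1 : ome j (n - 1) / ome j n ≤ 4 := by
      rw [div_le_iff₀ hw]; exact ome_pred_le j n
    have h2 : gam (n - 1) * |chi j (n - 1) - chi j n| / ome j n ≤ 4 := by
      rw [div_le_iff₀ hw]
      have h3 := (chi_diff j n).1
      have h4 := gam_le_one (n - 1)
      calc gam (n - 1) * |chi j (n - 1) - chi j n| ≤ 1 * |chi j (n - 1) - chi j n| :=
            mul_le_mul_of_nonneg_right h4 (abs_nonneg _)
        _ ≤ 4 * ome j n := by rw [one_mul]; exact h3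
    linarith

theorem vR_norm (n : ℤ) (j : ℕ) : ‖vR 𝕜 n j‖ ≤ 8 := by
  unfold vR
  have hg := gam_pos n
  have hg' := gam_pos (n - 1)
  have hw := ome_pos j n
  have hw' := ome_pos j (n - 1)
  split_ifs with h
  · rw [norm_ofReal_smul_f, abs_of_pos (by positivity)]
    rw [div_le_iff₀ hg']
    have := gam_le_pred n
    linarith
  · refine (norm_add_le _ _).trans ?_
    rw [norm_ofReal_smul_f, norm_ofReal_smul_f, abs_of_pos (by positivity), abs_div, abs_mul,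
      abs_of_pos hg, abs_of_pos hw']
    have h1 : ome j n / ome j (n - 1) ≤ 4 := by
      rw [div_le_iff₀ hw']; exact ome_le_pred j n
    have h2 : gam n * |chi j (n - 1) - chi j n| / ome j (n - 1) ≤ 4 := by
      rw [div_le_iff₀ hw']
      have h3 := (chi_diff j n).2
      have h4 := gam_le_one n
      calc gam n * |chi j (n - 1) - chi j n| ≤ 1 * |chi j (n - 1) - chi j n| :=
            mul_le_mul_of_nonneg_right h4 (abs_nonneg _)
        _ ≤ 4 * ome j (n - 1) := by rw [one_mul]; exact h3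
    linarith

/-- The operator `S_n`. -/
noncomputable def opS (n : ℤ) : E1 𝕜 →L[𝕜] E1 𝕜 := lift (vS 𝕜 n) 8 (vS_norm 𝕜 n)

/-- The operator `S_n⁻¹`. -/
noncomputable def opR (n : ℤ) : E1 𝕜 →L[𝕜] E1 𝕜 := lift (vR 𝕜 n) 8 (vR_norm 𝕜 n)

theorem opS_f (n : ℤ) (j : ℕ) : opS 𝕜 n (f 𝕜 j) = vS 𝕜 n j := lift_f _ _ _ _

theorem opR_f (n : ℤ) (j : ℕ) : opR 𝕜 n (f 𝕜 j) = vR 𝕜 n j := lift_f _ _ _ _

theorem opS_f0 (n : ℤ) : opS 𝕜 n (f 𝕜 0) = ((gam (n - 1) / gam n : ℝ) : 𝕜) • f 𝕜 0 := by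
  rw [opS_f, vS, if_pos rfl]

theorem opR_f0 (n : ℤ) : opR 𝕜 n (f 𝕜 0) = ((gam n / gam (n - 1) : ℝ) : 𝕜) • f 𝕜 0 := by
  rw [opR_f, vR, if_pos rfl]

theorem opS_fj (n : ℤ) (j : ℕ) (hj : j ≠ 0) : opS 𝕜 n (f 𝕜 j) =
    ((ome j (n - 1) / ome j n : ℝ) : 𝕜) • f 𝕜 j -
    ((gam (n - 1) * (chi j (n - 1) - chi j n) / ome j n : ℝ) : 𝕜) • f 𝕜 0 := by
  rw [opS_f, vS, if_neg hj]

theorem opR_fj (n : ℤ) (j : ℕ) (hj : j ≠ 0) : opR 𝕜 n (f 𝕜 j) =
    ((ome j n / ome j (n - 1) : ℝ) : 𝕜) • f 𝕜 j +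
    ((gam n * (chi j (n - 1) - chi j n) / ome j (n - 1) : ℝ) : 𝕜) • f 𝕜 0 := by
  rw [opR_f, vR, if_neg hj]

theorem SR (n : ℤ) (x : E1 𝕜) : opS 𝕜 n (opR 𝕜 n x) = x := by
  have h : (opS 𝕜 n).comp (opR 𝕜 n) = ContinuousLinearMap.id 𝕜 (E1 𝕜) := by
    apply clm_ext
    intro j
    rw [ContinuousLinearMap.comp_apply, ContinuousLinearMap.id_apply]
    have hg := (gam_pos n).ne'
    have hg' := (gam_pos (n - 1)).ne'
    have hw := (ome_pos j n).ne'
    have hw' := (ome_pos j (n - 1)).ne'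
    rcases Nat.eq_zero_or_pos j with h0 | h0
    · subst h0
      rw [opR_f0, map_smul, opS_f0, smul_smul, ← RCLike.ofReal_mul]
      have : gam n / gam (n - 1) * (gam (n - 1) / gam n) = 1 := by field_simp
      rw [this, RCLike.ofReal_one, one_smul]
    · have h0' : j ≠ 0 := by omega
      rw [opR_fj 𝕜 n j h0', map_add, map_smul, map_smul, opS_f0, opS_fj 𝕜 n j h0', smul_sub,
        smul_smul, smul_smul, smul_smul, ← RCLike.ofReal_mul, ← RCLike.ofReal_mul,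
        ← RCLike.ofReal_mul]
      have e1 : ome j n / ome j (n - 1) * (ome j (n - 1) / ome j n) = 1 := by field_simp
      have e2 : ome j n / ome j (n - 1) * (gam (n - 1) * (chi j (n - 1) - chi j n) / ome j n) =
          gam n * (chi j (n - 1) - chi j n) / ome j (n - 1) * (gam (n - 1) / gam n) := by
        field_simp
      rw [e1, e2, RCLike.ofReal_one, one_smul, sub_add_cancel]
  have := congrArg (fun Φ : E1 𝕜 →L[𝕜] E1 𝕜 => Φ x) h
  simpa using this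

theorem RS (n : ℤ) (x : E1 𝕜) : opR 𝕜 n (opS 𝕜 n x) = x := by
  have h : (opR 𝕜 n).comp (opS 𝕜 n) = ContinuousLinearMap.id 𝕜 (E1 𝕜) := by
    apply clm_ext
    intro j
    rw [ContinuousLinearMap.comp_apply, ContinuousLinearMap.id_apply]
    have hg := (gam_pos n).ne'
    have hg' := (gam_pos (n - 1)).ne'
    have hw := (ome_pos j n).ne'
    have hw' := (ome_pos j (n - 1)).ne'
    rcases Nat.eq_zero_or_pos j with h0 | h0
    · subst h0
      rw [opS_f0, map_smul, opR_f0, smul_smul, ← RCLike.ofReal_mul]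
      have : gam (n - 1) / gam n * (gam n / gam (n - 1)) = 1 := by field_simp
      rw [this, RCLike.ofReal_one, one_smul]
    · have h0' : j ≠ 0 := by omega
      rw [opS_fj 𝕜 n j h0', map_sub, map_smul, map_smul, opR_f0, opR_fj 𝕜 n j h0', smul_add,
        smul_smul, smul_smul, smul_smul, ← RCLike.ofReal_mul, ← RCLike.ofReal_mul,
        ← RCLike.ofReal_mul]
      have e1 : ome j (n - 1) / ome j n * (ome j n / ome j (n - 1)) = 1 := by field_simp
      have e2 : ome j (n - 1) / ome j n * (gam n * (chi j (n - 1) - chi j n) / ome j (n - 1)) =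
          gam (n - 1) * (chi j (n - 1) - chi j n) / ome j n * (gam n / gam (n - 1)) := by
        field_simp
      rw [e1, e2, RCLike.ofReal_one, one_smul, add_sub_cancel_right]
  have := congrArg (fun Φ : E1 𝕜 →L[𝕜] E1 𝕜 => Φ x) h
  simpa using this

/-- The invertible operator `S_n`. -/
noncomputable def SE (n : ℤ) : E1 𝕜 ≃L[𝕜] E1 𝕜 :=
  ContinuousLinearEquiv.equivOfInverse (opS 𝕜 n) (opR 𝕜 n) (RS 𝕜 n) (SR 𝕜 n)

theorem SE_coe (n : ℤ) : (SE 𝕜 n : E1 𝕜 →L[𝕜] E1 𝕜) = opS 𝕜 n := by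
  ext x; rfl

theorem SE_symm_coe (n : ℤ) : ((SE 𝕜 n).symm : E1 𝕜 →L[𝕜] E1 𝕜) = opR 𝕜 n := by
  ext x; rfl

theorem opS_norm (n : ℤ) : ‖opS 𝕜 n‖ ≤ 8 := lift_norm_le _ _ (by norm_num) _

theorem opR_norm (n : ℤ) : ‖opR 𝕜 n‖ ≤ 8 := lift_norm_le _ _ (by norm_num) _

/-- The vectors `J_k (g_0)`. -/
noncomputable def vA (k : ℤ) : E1 𝕜 := ((gam k : ℝ) : 𝕜) • f 𝕜 0

/-- The vectors `J_k (g_j)`. -/
noncomputable def vB (j : ℕ) (k : ℤ) : E1 𝕜 :=
  ((ome j k : ℝ) : 𝕜) • f 𝕜 j - ((chi j k * gam k : ℝ) : 𝕜) • f 𝕜 0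

theorem opS_vA (k : ℤ) : opS 𝕜 k (vA 𝕜 k) = vA 𝕜 (k - 1) := by
  unfold vA
  rw [map_smul, opS_f0, smul_smul, ← RCLike.ofReal_mul]
  have hg := (gam_pos k).ne'
  have : gam k * (gam (k - 1) / gam k) = gam (k - 1) := by field_simp
  rw [this]

theorem opS_vB (j : ℕ) (hj : j ≠ 0) (k : ℤ) : opS 𝕜 k (vB 𝕜 j k) = vB 𝕜 j (k - 1) := by
  unfold vB
  have hg := (gam_pos k).ne'
  have hw := (ome_pos j k).ne'
  rw [map_sub, map_smul, map_smul, opS_f0, opS_fj 𝕜 k j hj, smul_sub, smul_smul, smul_smul,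
    smul_smul, ← RCLike.ofReal_mul, ← RCLike.ofReal_mul, ← RCLike.ofReal_mul, sub_sub,
    ← add_smul, ← RCLike.ofReal_add]
  have e1 : ome j k * (ome j (k - 1) / ome j k) = ome j (k - 1) := by field_simp
  have e2 : ome j k * (gam (k - 1) * (chi j (k - 1) - chi j k) / ome j k) +
      chi j k * gam k * (gam (k - 1) / gam k) = chi j (k - 1) * gam (k - 1) := by
    field_simp
    ring
  rw [e1, e2]

/-- Values of the invariant functionals on the basis. -/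
noncomputable def vG (n : ℤ) (j : ℕ) : 𝕜 :=
  if j = 0 then ((1 / gam n : ℝ) : 𝕜) else ((chi j n / ome j n : ℝ) : 𝕜)

theorem chi_div_ome_le (j : ℕ) (n : ℤ) : chi j n / ome j n ≤ 4 ^ n.natAbs := by
  unfold chi
  split_ifs with h
  · have hs := one_le_st j
    rw [div_le_iff₀ (ome_pos j n)]
    unfold ome
    have h1 := pow4_le 0 (n.natAbs) n.natAbs (by simp)
    have h2 : (1 / 4 : ℝ) ^ n.natAbs ≤ (1 / 4 : ℝ) ^ (n - st j).natAbs :=
      pow_le_pow_of_le_one (by norm_num) (by norm_num) (by omega)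
    have h3 : (0 : ℝ) ≤ 2 ^ en j * (1 / 4) ^ (n - ↑(en j)).natAbs := by positivity
    rw [pow_zero] at h1
    calc (1 : ℝ) ≤ 4 ^ n.natAbs * (1 / 4 : ℝ) ^ n.natAbs := h1
      _ ≤ _ := by
        apply mul_le_mul_of_nonneg_left _ (by positivity)
        linarith
  · rw [zero_div]; positivity

theorem vG_norm (n : ℤ) (j : ℕ) : ‖vG 𝕜 n j‖ ≤ 4 ^ n.natAbs := by
  unfold vG
  split_ifs with h
  · rw [RCLike.norm_ofReal, abs_of_pos (by have := gam_pos n; positivity)]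
    rw [div_le_iff₀ (gam_pos n)]
    unfold gam
    have h1 := pow4_le 0 (-n).toNat n.natAbs (by omega)
    simpa using h1
  · rw [RCLike.norm_ofReal, abs_of_nonneg (div_nonneg (chi_nonneg j n) (ome_pos j n).le)]
    exact chi_div_ome_le j n

/-- The invariant functionals `G_n`. -/
noncomputable def GF (n : ℤ) : E1 𝕜 →L[𝕜] 𝕜 := lift (vG 𝕜 n) (4 ^ n.natAbs) (vG_norm 𝕜 n)

theorem GF_f (n : ℤ) (j : ℕ) : GF 𝕜 n (f 𝕜 j) = vG 𝕜 n j := lift_f _ _ _ _

theorem GF_S (n : ℤ) (ξ : E1 𝕜) : GF 𝕜 (n - 1) (opS 𝕜 n ξ) = GF 𝕜 n ξ := by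
  have h : (GF 𝕜 (n - 1)).comp (opS 𝕜 n) = GF 𝕜 n := by
    apply clm_ext
    intro j
    rw [ContinuousLinearMap.comp_apply]
    have hg := (gam_pos n).ne'
    have hg' := (gam_pos (n - 1)).ne'
    have hw := (ome_pos j n).ne'
    have hw' := (ome_pos j (n - 1)).ne'
    rcases Nat.eq_zero_or_pos j with h0 | h0
    · subst h0
      rw [opS_f0, map_smul, GF_f, GF_f, vG, vG, if_pos rfl, if_pos rfl, smul_eq_mul,
        ← RCLike.ofReal_mul]
      congr 1
      field_simp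
    · have h0' : j ≠ 0 := by omega
      rw [opS_fj 𝕜 n j h0', map_sub, map_smul, map_smul, GF_f, GF_f, GF_f, vG, vG, vG, if_pos rfl,
        if_neg h0', if_neg h0', smul_eq_mul, smul_eq_mul, ← RCLike.ofReal_mul,
        ← RCLike.ofReal_mul, ← RCLike.ofReal_sub]
      congr 1
      field_simp
      ring
  have := congrArg (fun Φ : E1 𝕜 →L[𝕜] 𝕜 => Φ ξ) h
  simpa using this

theorem GF_zero (ξ : E1 𝕜) : GF 𝕜 0 ξ = ξ 0 := by
  rw [← coord_apply]
  have h : GF 𝕜 0 = coord 0 := by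
    apply clm_ext
    intro j
    rw [GF_f, coord_f, vG]
    split_ifs with h
    · rw [gam_nonneg_eq 0 le_rfl]; simp
    · have : chi j 0 = 0 := by
        unfold chi; rw [if_neg]
        have := one_le_st j
        omega
      rw [this]; simp
  rw [h]

/-- The normalised coordinates are invariant. -/
theorem coord_S (n : ℤ) (j : ℕ) (hj : j ≠ 0) (ξ : E1 𝕜) :
    coord j (opS 𝕜 n ξ) / ((ome j (n - 1) : ℝ) : 𝕜) = coord j ξ / ((ome j n : ℝ) : 𝕜) := by
  have hw := (ome_pos j n).ne'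
  have hw' := (ome_pos j (n - 1)).ne'
  have h : (coord j).comp (opS 𝕜 n) = ((ome j (n - 1) / ome j n : ℝ) : 𝕜) • coord (𝕜 := 𝕜) j := by
    apply clm_ext
    intro i
    rw [ContinuousLinearMap.comp_apply, smul_apply]
    rcases Nat.eq_zero_or_pos i with h0 | h0
    · subst h0
      rw [opS_f0, map_smul, coord_f, if_neg (by omega)]
      simp
    · have h0' : i ≠ 0 := by omega
      rw [opS_fj 𝕜 n i h0', map_sub, map_smul, map_smul, coord_f, coord_f, if_neg (by omega : ¬ 0 = j)]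
      by_cases hij : i = j
      · subst hij; simp
      · simp [hij]
  have h1 := congrArg (fun Φ : E1 𝕜 →L[𝕜] 𝕜 => Φ ξ) h
  simp only [ContinuousLinearMap.comp_apply, smul_apply] at h1
  have hc : ((ome j n : ℝ) : 𝕜) ≠ 0 := by exact_mod_cast hw
  have hc' : ((ome j (n - 1) : ℝ) : 𝕜) ≠ 0 := by exact_mod_cast hw'
  rw [h1, smul_eq_mul, RCLike.ofReal_div]
  field_simp

end Pool.Agent.Lib.MP_7d5718_an
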