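import Mathlib

set_option autoImplicit false

namespace Pool.Agent.Lib.MP_7d5718_an

/-- The lower density `liminf_N |A ∩ {0, …, N-1}| / N` of a set of natural numbers. -/
noncomputable def lowerDensity (A : Set ℕ) : ℝ :=
  Filter.liminf (fun N : ℕ => (Set.ncard {n : ℕ | n < N ∧ n ∈ A} : ℝ) / (N : ℝ)) Filter.atTop

/-- `T` is hypercyclic: some orbit `{T^n x : n ≥ 0}` is dense. -/
def Hypercyclic {E : Type*} [TopologicalSpace E] (T : E → E) : Prop :=
  ∃ x : E, Dense (Set.range fun n : ℕ => T^[n] x)

/-- `T` is Devaney chaotic: hypercyclic, with a dense set of periodic points. -/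
def DevaneyChaotic {E : Type*} [TopologicalSpace E] (T : E → E) : Prop :=
  Hypercyclic T ∧ Dense {x : E | ∃ k : ℕ, 1 ≤ k ∧ T^[k] x = x}

/-- `T` is frequently hypercyclic: some `x` visits every nonempty open set along a set of times
of positive lower density. -/
def FrequentlyHypercyclic {E : Type*} [TopologicalSpace E] (T : E → E) : Prop :=
  ∃ x : E, ∀ U : Set E, IsOpen U → U.Nonempty → 0 < lowerDensity {n : ℕ | T^[n] x ∈ U}

end Pool.Agent.Lib.MP_7d5718_an
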