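import Pool.Agent.Lib.MP_7d5718_an.Defs

set_option autoImplicit false

namespace Pool.Agent.Lib.MP_7d5718_an

open Finset Filter

/-- If eventually `|A ∩ [0,N)| ≥ δ N` with `δ > 0`, the lower density is positive. -/
theorem lowerDensity_pos {A : Set ℕ} {δ : ℝ} (hδ : 0 < δ)
    (h : ∀ᶠ N : ℕ in atTop, δ * N ≤ (Set.ncard {n : ℕ | n < N ∧ n ∈ A} : ℝ)) :
    0 < lowerDensity A := by
  refine lt_of_lt_of_le hδ ?_
  unfold lowerDensity
  apply Filter.le_liminf_of_le
  · apply Filter.IsBoundedUnder.isCoboundedUnder_ge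
    refine ⟨1, ?_⟩
    rw [Filter.eventually_map]
    filter_upwards [eventually_gt_atTop 0] with N hN
    have hN' : (0 : ℝ) < N := by exact_mod_cast hN
    rw [div_le_one hN']
    have h1 : Set.ncard {n : ℕ | n < N ∧ n ∈ A} ≤ Set.ncard (Set.Iio N) := by
      apply Set.ncard_le_ncard
      · intro n hn; exact hn.1
      · exact Set.finite_Iio N
    have h2 : Set.ncard (Set.Iio N) = N := by
      rw [← Finset.coe_Iio, Set.ncard_coe_finset]; simp
    rw [h2] at h1
    exact_mod_cast h1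
  · filter_upwards [h, eventually_gt_atTop 0] with N hN hN0
    have hN' : (0 : ℝ) < N := by exact_mod_cast hN0
    rw [le_div_iff₀ hN']
    exact hN

theorem lowerDensity_mono_pos {A B : Set ℕ} (hAB : A ⊆ B) {δ : ℝ} (hδ : 0 < δ)
    (h : ∀ᶠ N : ℕ in atTop, δ * N ≤ (Set.ncard {n : ℕ | n < N ∧ n ∈ A} : ℝ)) :
    0 < lowerDensity B := by
  apply lowerDensity_pos hδ
  filter_upwards [h] with N hN
  refine hN.trans ?_
  have h1 : Set.ncard {n : ℕ | n < N ∧ n ∈ A} ≤ Set.ncard {n : ℕ | n < N ∧ n ∈ B} := by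
    apply Set.ncard_le_ncard
    · intro n hn; exact ⟨hn.1, hAB hn.2⟩
    · exact (Set.finite_Iio N).subset fun n hn => hn.1
  exact_mod_cast h1

section Sched

variable (Nn : ℕ → ℕ)

/-- The moduli. -/
def dd : ℕ → ℕ
  | 0 => 1
  | j + 1 => dd j * (2 ^ (j + 1) * (Nn (j + 1) + 1))

theorem dd_pos (j : ℕ) : 0 < dd Nn j := by
  induction j with
  | zero => simp [dd]
  | succ j ih => simp only [dd]; positivity

theorem dd_dvd_succ (j : ℕ) : dd Nn j ∣ dd Nn (j + 1) := Dvd.intro _ rfl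

theorem dd_dvd {i j : ℕ} (h : i ≤ j) : dd Nn i ∣ dd Nn j := by
  induction j with
  | zero => have : i = 0 := by omega
            subst this; exact dvd_rfl
  | succ j ih =>
    rcases Nat.lt_or_ge i (j + 1) with h1 | h1
    · exact (ih (by omega)).trans (dd_dvd_succ Nn j)
    · have : i = j + 1 := by omega
      subst this; exact dvd_rfl

theorem dd_ge (j : ℕ) : 2 ^ (j + 1) * Nn (j + 1) ≤ dd Nn (j + 1) := by
  simp only [dd]
  have := dd_pos Nn j
  calc 2 ^ (j + 1) * Nn (j + 1) ≤ 1 * (2 ^ (j + 1) * (Nn (j + 1) + 1)) := by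
        rw [one_mul]; exact Nat.mul_le_mul_left _ (by omega)
    _ ≤ dd Nn j * (2 ^ (j + 1) * (Nn (j + 1) + 1)) := Nat.mul_le_mul_right _ this

theorem two_mul_dd_le (j : ℕ) : 2 * dd Nn j ≤ dd Nn (j + 1) := by
  simp only [dd]
  rw [mul_comm 2]
  apply Nat.mul_le_mul_left
  calc 2 = 2 ^ 1 * 1 := by norm_num
    _ ≤ 2 ^ (j + 1) * (Nn (j + 1) + 1) :=
      Nat.mul_le_mul (Nat.pow_le_pow_right (by norm_num) (by omega)) (by omega)

theorem lt_dd (j : ℕ) : j < dd Nn j := by
  induction j with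
  | zero => simp [dd]
  | succ j ih => have := two_mul_dd_le Nn j; omega

/-- The label of the `k`-th visit. -/
def lab (k : ℕ) : ℕ := Nat.findGreatest (fun j => dd Nn j ∣ k) k

theorem lab_dvd {k : ℕ} : dd Nn (lab Nn k) ∣ k := by
  unfold lab
  have h0 : dd Nn 0 ∣ k := by simp [dd]
  exact Nat.findGreatest_spec (P := fun j => dd Nn j ∣ k) (Nat.zero_le k) h0

theorem lab_eq {j k : ℕ} (hk : 1 ≤ k) (h1 : dd Nn j ∣ k) (h2 : ¬ dd Nn (j + 1) ∣ k) :
    lab Nn k = j := by
  apply le_antisymm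
  · by_contra hcon
    push Not at hcon
    exact h2 ((dd_dvd Nn hcon).trans (lab_dvd Nn))
  · unfold lab
    exact Nat.le_findGreatest (P := fun j => dd Nn j ∣ k)
      ((lt_dd Nn j).le.trans (Nat.le_of_dvd hk h1)) h1

/-- The times of the visits. -/
def tm : ℕ → ℕ
  | 0 => 0
  | k + 1 => tm k + (if k = 0 then 0 else Nn (lab Nn k)) + Nn (lab Nn (k + 1)) + 1

theorem tm_succ (k : ℕ) :
    tm Nn (k + 1) = tm Nn k + (if k = 0 then 0 else Nn (lab Nn k)) + Nn (lab Nn (k + 1)) + 1 := rfl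

theorem tm_ge {k : ℕ} (hk : 1 ≤ k) : Nn (lab Nn k) + k ≤ tm Nn k := by
  induction k with
  | zero => omega
  | succ k ih =>
    rw [tm_succ]
    rcases Nat.eq_zero_or_pos k with h | h
    · subst h; simp [tm]
    · have := ih h
      omega

theorem tm_sep {k' k : ℕ} (h1 : 1 ≤ k') (h : k' < k) :
    Nn (lab Nn k') + Nn (lab Nn k) + (k - k') + tm Nn k' ≤ tm Nn k := by
  induction k with
  | zero => omega
  | succ k ih =>
    rw [tm_succ]
    rcases Nat.lt_or_ge k' k with h2 | h2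
    · have := ih h2
      have : k ≠ 0 := by omega
      rw [if_neg this]
      omega
    · have h3 : k' = k := by omega
      subst h3
      rw [if_neg (by omega)]
      omega

theorem tm_strictMono_of {k' k : ℕ} (h : k' < k) : tm Nn k' < tm Nn k := by
  rcases Nat.eq_zero_or_pos k' with h0 | h0
  · subst h0
    have := tm_ge Nn (k := k) (by omega)
    have h1 : tm Nn 0 = 0 := rfl
    omega
  · have := tm_sep Nn h0 h
    omega

theorem tm_le_sum (k : ℕ) : tm Nn k ≤ k + 2 * ∑ i ∈ Finset.Icc 1 k, Nn (lab Nn i) := by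
  induction k with
  | zero => simp [tm]
  | succ k ih =>
    rw [tm_succ, Finset.sum_Icc_succ_top (by omega)]
    rcases Nat.eq_zero_or_pos k with h | h
    · subst h; simp [tm]; omega
    · rw [if_neg (by omega)]
      have h1 : Nn (lab Nn k) ≤ ∑ i ∈ Finset.Icc 1 k, Nn (lab Nn i) :=
        Finset.single_le_sum (f := fun i => Nn (lab Nn i)) (fun i _ => Nat.zero_le _)
          (Finset.mem_Icc.2 ⟨h, le_rfl⟩)
      -- use a refined induction: `tm (k+1) ≤ ...`
      have h2 : tm Nn k + Nn (lab Nn k) ≤ k + 2 * ∑ i ∈ Finset.Icc 1 k, Nn (lab Nn i) := by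
        clear ih h1
        induction k with
        | zero => omega
        | succ k ih2 =>
          rw [tm_succ, Finset.sum_Icc_succ_top (by omega)]
          rcases Nat.eq_zero_or_pos k with h0 | h0
          · subst h0; simp [tm]; omega
          · rw [if_neg (by omega)]
            have := ih2 h0
            omega
      omega

theorem card_mult (K e : ℕ) : ((Finset.Icc 1 K).filter (fun k => e ∣ k)).card = K / e := by
  rw [← Nat.card_multiples' K e]
  congr 1
  ext k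
  simp only [Finset.mem_filter, Finset.mem_Icc, Finset.mem_range]
  constructor
  · rintro ⟨⟨h1, h2⟩, h3⟩; exact ⟨by omega, by omega, h3⟩
  · rintro ⟨h1, h2, h3⟩; exact ⟨⟨by omega, by omega⟩, h3⟩

theorem sum_lab_le (k : ℕ) :
    (∑ i ∈ Finset.Icc 1 k, (Nn (lab Nn i) : ℝ)) ≤ ((Nn 0 : ℝ) + 1) * k := by
  have h1 : ∀ i ∈ Finset.Icc 1 k, (Nn (lab Nn i) : ℝ) ≤
      ∑ j ∈ Finset.range (k + 1), (if dd Nn j ∣ i then (Nn j : ℝ) else 0) := by
    intro i hi
    have hi' := Finset.mem_Icc.1 hi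
    have hle : lab Nn i ≤ i := Nat.findGreatest_le i
    have h2 := Finset.single_le_sum
      (f := fun j => if dd Nn j ∣ i then (Nn j : ℝ) else 0)
      (s := Finset.range (k + 1)) (fun j _ => by split_ifs <;> positivity)
      (Finset.mem_range.2 (by omega : lab Nn i < k + 1))
    simpa only [lab_dvd, if_true] using h2
  refine (Finset.sum_le_sum h1).trans ?_
  rw [Finset.sum_comm]
  have h3 : ∀ j ∈ Finset.range (k + 1),
      (∑ i ∈ Finset.Icc 1 k, (if dd Nn j ∣ i then (Nn j : ℝ) else 0)) ≤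
        (if j = 0 then (Nn 0 : ℝ) else (1 / 2 : ℝ) ^ j) * k := by
    intro j _
    rw [← Finset.sum_filter, Finset.sum_const, nsmul_eq_mul]
    rw [card_mult]
    have hd := dd_pos Nn j
    have hdr : (0 : ℝ) < dd Nn j := by exact_mod_cast hd
    have h4 : ((k / dd Nn j : ℕ) : ℝ) ≤ (k : ℝ) / dd Nn j := Nat.cast_div_le
    rcases Nat.eq_zero_or_pos j with h0 | h0
    · subst h0
      simp only [if_true]
      have h5 : (dd Nn 0 : ℝ) = 1 := by simp [dd]
      rw [h5, div_one] at h4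
      have h6 : (0 : ℝ) ≤ Nn 0 := Nat.cast_nonneg _
      nlinarith
    · rw [if_neg (by omega)]
      obtain ⟨j', rfl⟩ : ∃ j', j = j' + 1 := ⟨j - 1, by omega⟩
      have h5 := dd_ge Nn j'
      have h6 : (2 : ℝ) ^ (j' + 1) * Nn (j' + 1) ≤ dd Nn (j' + 1) := by exact_mod_cast h5
      have h7 : (0 : ℝ) ≤ Nn (j' + 1) := Nat.cast_nonneg _
      calc ((k / dd Nn (j' + 1) : ℕ) : ℝ) * Nn (j' + 1)
          ≤ (k : ℝ) / dd Nn (j' + 1) * Nn (j' + 1) := mul_le_mul_of_nonneg_right h4 h7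
        _ ≤ (1 / 2 : ℝ) ^ (j' + 1) * k := by
            rw [div_mul_eq_mul_div, div_le_iff₀ hdr, one_div, inv_pow]
            have hk : (0 : ℝ) ≤ k := Nat.cast_nonneg k
            have h8 : (0 : ℝ) < 2 ^ (j' + 1) := by positivity
            rw [mul_assoc, inv_mul_eq_div, le_div_iff₀ h8]
            nlinarith
  refine (Finset.sum_le_sum h3).trans ?_
  rw [← Finset.sum_mul]
  apply mul_le_mul_of_nonneg_right _ (Nat.cast_nonneg k)
  rw [Finset.sum_range_succ']
  simp only [if_true]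
  have h9 : ∑ i ∈ Finset.range k, (if i + 1 = 0 then (Nn 0 : ℝ) else (1 / 2 : ℝ) ^ (i + 1)) =
      1 - (1 / 2 : ℝ) ^ k := by
    have h10 : ∀ i ∈ Finset.range k, (if i + 1 = 0 then (Nn 0 : ℝ) else (1 / 2 : ℝ) ^ (i + 1)) =
        (1 / 2 : ℝ) ^ i * (1 / 2) := by
      intro i _
      rw [if_neg (by omega), pow_succ]
    rw [Finset.sum_congr rfl h10, ← Finset.sum_mul, geom_sum_eq (by norm_num)]
    ring
  rw [h9]
  have h11 : (0 : ℝ) ≤ (1 / 2 : ℝ) ^ k := by positivity
  linarith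

theorem tm_le (k : ℕ) : (tm Nn k : ℝ) ≤ (2 * (Nn 0 : ℝ) + 3) * k := by
  have h1 : (tm Nn k : ℝ) ≤ k + 2 * ∑ i ∈ Finset.Icc 1 k, (Nn (lab Nn i) : ℝ) := by
    exact_mod_cast tm_le_sum Nn k
  have h2 := sum_lab_le Nn k
  linarith

/-- The set of times with label `j` has positive lower density. -/
theorem tm_density (j : ℕ) : ∃ δ : ℝ, 0 < δ ∧ ∀ᶠ N : ℕ in atTop, δ * N ≤
    (Set.ncard {n : ℕ | n < N ∧ n ∈ {n | ∃ k, 1 ≤ k ∧ lab Nn k = j ∧ tm Nn k = n}} : ℝ) := by
  classical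
  set M : ℕ := 2 * Nn 0 + 3 with hM
  set d := dd Nn j with hd
  have hd0 : 0 < d := dd_pos Nn j
  have hdd := two_mul_dd_le Nn j
  refine ⟨1 / (8 * M * d), by positivity, ?_⟩
  filter_upwards [eventually_ge_atTop (16 * M * d)] with N hN
  -- indices `k ≤ K` with `K = N / (2M)` hence `tm k ≤ M k < N`
  set K := N / (2 * M) with hK
  have hMpos : 0 < M := by omega
  have hKpos : 1 ≤ K := by
    rw [hK, Nat.one_le_div_iff (by positivity)]
    calc 2 * M ≤ 16 * M * 1 := by omega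
      _ ≤ 16 * M * d := Nat.mul_le_mul_left _ hd0
      _ ≤ N := hN
  have hsub : ((Finset.Icc 1 K).filter (fun k => d ∣ k ∧ ¬ dd Nn (j + 1) ∣ k)).image (tm Nn) ⊆
      (Finset.range N).filter (fun n => ∃ k, 1 ≤ k ∧ lab Nn k = j ∧ tm Nn k = n) := by
    intro n hn
    obtain ⟨k, hk, rfl⟩ := Finset.mem_image.1 hn
    obtain ⟨hk1, hk2, hk3⟩ := Finset.mem_filter.1 hk
    obtain ⟨hk4, hk5⟩ := Finset.mem_Icc.1 hk1
    rw [Finset.mem_filter, Finset.mem_range]
    refine ⟨?_, k, hk4, lab_eq Nn hk4 hk2 hk3, rfl⟩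
    have h1 := tm_le Nn k
    have h2 : (2 * (Nn 0 : ℝ) + 3) = (M : ℝ) := by rw [hM]; push_cast; ring
    rw [h2] at h1
    have h3 : tm Nn k ≤ M * k := by exact_mod_cast h1
    have h4 : 2 * M * K ≤ N := Nat.mul_div_le N (2 * M)
    have h5 : M * k ≤ M * K := Nat.mul_le_mul_left _ hk5
    have h6 : 0 < M * K := by positivity
    have h7 : 2 * M * K = M * K + M * K := by ring
    omega
  have hinj : Function.Injective (tm Nn) := by
    intro a b hab
    rcases lt_trichotomy a b with h | h | h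
    · have := tm_strictMono_of Nn h; omega
    · exact h
    · have := tm_strictMono_of Nn h; omega
  have hcard1 := Finset.card_le_card hsub
  rw [Finset.card_image_of_injective _ hinj] at hcard1
  -- counting multiples
  have hcard2 : ((Finset.Icc 1 K).filter (fun k => d ∣ k)).card ≤
      ((Finset.Icc 1 K).filter (fun k => d ∣ k ∧ ¬ dd Nn (j + 1) ∣ k)).card +
      ((Finset.Icc 1 K).filter (fun k => dd Nn (j + 1) ∣ k)).card := by
    rw [← Finset.card_union_add_card_inter]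
    refine le_trans (Finset.card_le_card ?_) (Nat.le_add_right _ _)
    intro k hk
    rw [Finset.mem_filter] at hk
    rw [Finset.mem_union, Finset.mem_filter, Finset.mem_filter]
    by_cases h : dd Nn (j + 1) ∣ k
    · right; exact ⟨hk.1, h⟩
    · left; exact ⟨hk.1, hk.2, h⟩
  rw [card_mult, card_mult] at hcard2
  have h8 : K / dd Nn (j + 1) ≤ K / (2 * d) := Nat.div_le_div_left hdd (by omega)
  have hset : {n : ℕ | n < N ∧ n ∈ {n | ∃ k, 1 ≤ k ∧ lab Nn k = j ∧ tm Nn k = n}} =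
      ((Finset.range N).filter (fun n => ∃ k, 1 ≤ k ∧ lab Nn k = j ∧ tm Nn k = n) : Set ℕ) := by
    ext n; simp
  simp only [Set.mem_ofPred_eq] at hset ⊢
  rw [hset, Set.ncard_coe_finset]
  have h9 : K / d - K / (2 * d) ≤
      ((Finset.range N).filter (fun n => ∃ k, 1 ≤ k ∧ lab Nn k = j ∧ tm Nn k = n)).card := by
    omega
  have h10 : ((K / d - K / (2 * d) : ℕ) : ℝ) ≤
      (((Finset.range N).filter (fun n => ∃ k, 1 ≤ k ∧ lab Nn k = j ∧ tm Nn k = n)).card : ℝ) := by
    exact_mod_cast h9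
  refine le_trans ?_ h10
  have h11 : K / (2 * d) ≤ K / d := Nat.div_le_div_left (by omega) hd0
  rw [Nat.cast_sub h11]
  have hdr : (0 : ℝ) < d := by exact_mod_cast hd0
  have hMr : (0 : ℝ) < M := by exact_mod_cast hMpos
  have h12 : ((K / (2 * d) : ℕ) : ℝ) ≤ (K : ℝ) / ((2 * d : ℕ) : ℝ) := Nat.cast_div_le
  have h13 : (K : ℝ) / d - 1 < ((K / d : ℕ) : ℝ) := by
    have h14 := Nat.lt_div_mul_add hd0 (a := K)
    have h15 : (K : ℝ) < ((K / d : ℕ) : ℝ) * d + d := by exact_mod_cast h14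
    rw [sub_lt_iff_lt_add, div_lt_iff₀ hdr]
    linarith
  have h16 : (N : ℝ) / (2 * M) - 1 < K := by
    have h14 := Nat.lt_div_mul_add (show 0 < 2 * M by positivity) (a := N)
    rw [← hK] at h14
    have h15 : (N : ℝ) < (K : ℝ) * (2 * M) + 2 * M := by exact_mod_cast h14
    rw [sub_lt_iff_lt_add, div_lt_iff₀ (by positivity)]
    linarith
  push_cast at h12
  have hNr : (16 * (M : ℝ) * d) ≤ N := by exact_mod_cast hN
  have h17 : (K : ℝ) / d = (K : ℝ) / (2 * d) + (K : ℝ) / (2 * d) := by field_simp; ring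
  have h18 : (N : ℝ) / (2 * M) / (2 * d) = 1 / (8 * (M : ℝ) * d) * N + 1 / (8 * (M : ℝ) * d) * N := by
    field_simp; ring
  have h19 : 2 ≤ 1 / (8 * (M : ℝ) * d) * N := by
    rw [one_div, inv_mul_eq_div, le_div_iff₀ (by positivity)]
    linarith
  have hd1 : (1 : ℝ) ≤ d := by exact_mod_cast hd0
  have h20 : ((N : ℝ) / (2 * M) - 1) / (2 * d) < (K : ℝ) / (2 * d) :=
    div_lt_div_of_pos_right h16 (by positivity)
  have h21 : ((N : ℝ) / (2 * M) - 1) / (2 * d) = (N : ℝ) / (2 * M) / (2 * d) - 1 / (2 * d) := by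
    ring
  have h22 : 1 / (2 * (d : ℝ)) ≤ 1 / 2 := by
    apply div_le_div_of_nonneg_left (by norm_num) (by norm_num)
    linarith
  rw [h21, h18] at h20
  linarith

end Sched

end Pool.Agent.Lib.MP_7d5718_an
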