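import Mathlib

set_option autoImplicit false

namespace Pool.Agent.Lib.MP_7d5718_an

open scoped ENNReal

variable (𝕜 : Type*) [RCLike 𝕜]

/-- The Banach space `ℓ^1(ℕ)` over `𝕜`. -/
abbrev E1 := lp (fun _ : ℕ => 𝕜) 1

/-- The unit vector basis of `ℓ^1`. -/
noncomputable def f (i : ℕ) : E1 𝕜 := lp.single 1 i (1 : 𝕜)

theorem norm_f (i : ℕ) : ‖f 𝕜 i‖ = 1 := by
  unfold f
  rw [lp.norm_single (by norm_num)]
  simp

theorem f_apply (i j : ℕ) : (f 𝕜 i : ℕ → 𝕜) j = if j = i then 1 else 0 := by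
  unfold f
  rw [lp.single_apply]
  by_cases h : j = i
  · subst h; simp
  · simp [h]

variable {𝕜}

theorem summable_coord (x : E1 𝕜) : Summable (fun i => ‖x i‖) := by
  have h := (lp.memℓp x).summable (by norm_num)
  simpa using h

theorem norm_eq_tsum (x : E1 𝕜) : ‖x‖ = ∑' i, ‖x i‖ := by
  have h := lp.norm_eq_tsum_rpow (p := 1) (by norm_num) x
  simpa using h

theorem norm_coord_le (x : E1 𝕜) (i : ℕ) : ‖x i‖ ≤ ‖x‖ := by
  rw [norm_eq_tsum]
  exact (summable_coord x).le_tsum i (fun j _ => norm_nonneg _)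

theorem smul_f (i : ℕ) (a : 𝕜) : a • f 𝕜 i = lp.single 1 i a := by
  unfold f
  rw [← lp.single_smul]
  simp

theorem hasSum_f (x : E1 𝕜) : HasSum (fun i => (x i) • f 𝕜 i) x := by
  have h := lp.hasSum_single (p := 1) (by norm_num) x
  simpa only [smul_f] using h

section lift

variable {F : Type*} [NormedAddCommGroup F] [NormedSpace 𝕜 F]

theorem hasSum_map (Φ : E1 𝕜 →L[𝕜] F) (x : E1 𝕜) :
    HasSum (fun i => (x i) • Φ (f 𝕜 i)) (Φ x) := by
  have h := (hasSum_f x).mapL Φ
  simpa only [map_smul] using h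

theorem clm_ext {Φ Ψ : E1 𝕜 →L[𝕜] F} (h : ∀ i, Φ (f 𝕜 i) = Ψ (f 𝕜 i)) : Φ = Ψ := by
  ext x
  have h1 := hasSum_map Φ x
  have h2 := hasSum_map Ψ x
  simp only [h] at h1
  exact h1.unique h2

variable [CompleteSpace F]

theorem summable_lift (v : ℕ → F) (C : ℝ) (hv : ∀ i, ‖v i‖ ≤ C) (x : E1 𝕜) :
    Summable (fun i => (x i) • v i) := by
  apply Summable.of_norm
  apply Summable.of_nonneg_of_le (fun i => norm_nonneg _) (fun i => ?_)
    ((summable_coord x).mul_right C)
  rw [norm_smul]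
  exact mul_le_mul_of_nonneg_left (hv i) (norm_nonneg _)

/-- The bounded operator on `ℓ^1` with prescribed (bounded) values on the basis. -/
noncomputable def lift (v : ℕ → F) (C : ℝ) (hv : ∀ i, ‖v i‖ ≤ C) : E1 𝕜 →L[𝕜] F :=
  LinearMap.mkContinuous
    { toFun := fun x => ∑' i, (x i) • v i
      map_add' := fun x y => by
        rw [← (summable_lift v C hv x).tsum_add (summable_lift v C hv y)]
        congr 1
        ext i
        rw [lp.coeFn_add, Pi.add_apply, add_smul]
      map_smul' := fun a x => by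
        rw [RingHom.id_apply, ← (summable_lift v C hv x).tsum_const_smul a]
        congr 1
        ext i
        rw [lp.coeFn_smul, Pi.smul_apply, smul_eq_mul, mul_smul] }
    C (fun x => by
      simp only [LinearMap.coe_mk, AddHom.coe_mk]
      rw [norm_eq_tsum, ← tsum_mul_left]
      have hs : Summable (fun i => ‖(x i) • v i‖) := by
        apply Summable.of_nonneg_of_le (fun i => norm_nonneg _) (fun i => ?_)
          ((summable_coord x).mul_right C)
        rw [norm_smul]
        exact mul_le_mul_of_nonneg_left (hv i) (norm_nonneg _)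
      refine (norm_tsum_le_tsum_norm hs).trans ?_
      apply Summable.tsum_le_tsum _ hs ((summable_coord x).mul_left C)
      intro i
      rw [norm_smul, mul_comm]
      exact mul_le_mul_of_nonneg_right (hv i) (norm_nonneg _))

theorem lift_apply (v : ℕ → F) (C : ℝ) (hv : ∀ i, ‖v i‖ ≤ C) (x : E1 𝕜) :
    lift v C hv x = ∑' j, (x j) • v j := rfl

theorem lift_f (v : ℕ → F) (C : ℝ) (hv : ∀ i, ‖v i‖ ≤ C) (i : ℕ) :
    lift v C hv (f 𝕜 i) = v i := by
  rw [lift_apply, tsum_eq_single i]
  · rw [f_apply]; simp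
  · intro j hj
    rw [f_apply, if_neg hj, zero_smul]

theorem lift_norm_le (v : ℕ → F) (C : ℝ) (hC : 0 ≤ C) (hv : ∀ i, ‖v i‖ ≤ C) :
    ‖lift (𝕜 := 𝕜) v C hv‖ ≤ C :=
  LinearMap.mkContinuous_norm_le _ hC _

end lift

/-- The coordinate functionals. -/
noncomputable def coord (j : ℕ) : E1 𝕜 →L[𝕜] 𝕜 :=
  lift (fun i => if i = j then (1 : 𝕜) else 0) 1 (fun i => by split_ifs <;> simp)

theorem coord_f (i j : ℕ) : coord j (f 𝕜 i) = if i = j then (1 : 𝕜) else 0 := by
  unfold coord
  rw [lift_f]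

theorem coord_apply (j : ℕ) (x : E1 𝕜) : coord j x = x j := by
  have h := hasSum_map (coord j) x
  have h2 : HasSum (fun i => (x i) • coord j (f 𝕜 i)) (x j) := by
    have : (fun i => (x i) • coord j (f 𝕜 i)) = fun i => if i = j then x j else 0 := by
      ext i
      rw [coord_f]
      by_cases hij : i = j
      · subst hij; simp
      · simp [hij]
    rw [this]
    exact hasSum_ite_eq j (x j)
  exact h.unique h2

theorem span_f_dense : Dense (Submodule.span 𝕜 (Set.range (f 𝕜)) : Set (E1 𝕜)) := by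
  intro x
  apply mem_closure_of_tendsto (hasSum_f x)
  apply Filter.Eventually.of_forall
  intro s
  apply Submodule.sum_mem
  intro i _
  exact Submodule.smul_mem _ _ (Submodule.subset_span ⟨i, rfl⟩)

end Pool.Agent.Lib.MP_7d5718_an
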