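import Mathlib

set_option autoImplicit false

namespace Pool.Agent.Lib.MP_7d5718_an

open scoped ENNReal

section shift

variable {𝕜 : Type*} [RCLike 𝕜] {X : Type*} [NormedAddCommGroup X] [NormedSpace 𝕜 X]
variable (p : ℝ≥0∞) [Fact (1 ≤ p)]

theorem toReal_pos' (hp : p ≠ ∞) : 0 < p.toReal :=
  ENNReal.toReal_pos (zero_lt_one.trans_le Fact.out).ne' hp

theorem shift_summable (hp : p ≠ ∞) (S : ℤ → X →L[𝕜] X) (C : ℝ) (hC : ∀ n, ‖S n‖ ≤ C)
    (x : lp (fun _ : ℤ => X) p) :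
    Summable (fun n : ℤ => ‖S (n + 1) (x (n + 1))‖ ^ p.toReal) := by
  have hC0 : 0 ≤ C := (norm_nonneg _).trans (hC 0)
  have h1 : Summable (fun n : ℤ => ‖x n‖ ^ p.toReal) := (lp.memℓp x).summable (toReal_pos' p hp)
  have h2 : Summable (fun n : ℤ => ‖x (n + 1)‖ ^ p.toReal) :=
    ((Equiv.addRight (1 : ℤ)).summable_iff (f := fun n : ℤ => ‖x n‖ ^ p.toReal)).2 h1
  apply Summable.of_nonneg_of_le (fun n => by positivity) (fun n => ?_) (h2.mul_left (C ^ p.toReal))
  rw [← Real.mul_rpow hC0 (norm_nonneg _)]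
  apply Real.rpow_le_rpow (norm_nonneg _) _ (toReal_pos' p hp).le
  exact ((S (n + 1)).le_opNorm _).trans (mul_le_mul_of_nonneg_right (hC _) (norm_nonneg _))

/-- The shift operator generated by a bounded sequence of operators. -/
noncomputable def shiftOp (hp : p ≠ ∞) (S : ℤ → X →L[𝕜] X) (C : ℝ) (hC : ∀ n, ‖S n‖ ≤ C) :
    lp (fun _ : ℤ => X) p →L[𝕜] lp (fun _ : ℤ => X) p :=
  LinearMap.mkContinuous
    { toFun := fun x => ⟨fun n => S (n + 1) (x (n + 1)),
        memℓp_gen (shift_summable p hp S C hC x)⟩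
      map_add' := fun x y => by
        ext n
        simp only [lp.coeFn_add, Pi.add_apply, map_add]
      map_smul' := fun a x => by
        ext n
        simp only [lp.coeFn_smul, Pi.smul_apply, map_smul, RingHom.id_apply] }
    C (fun x => by
      have hC0 : 0 ≤ C := (norm_nonneg _).trans (hC 0)
      have hp0 := toReal_pos' p hp
      apply lp.norm_le_of_tsum_le hp0 (by positivity)
      simp only [LinearMap.coe_mk, AddHom.coe_mk]
      have h1 : Summable (fun n : ℤ => ‖x n‖ ^ p.toReal) := (lp.memℓp x).summable hp0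
      have h2 : Summable (fun n : ℤ => ‖x (n + 1)‖ ^ p.toReal) :=
        ((Equiv.addRight (1 : ℤ)).summable_iff (f := fun n : ℤ => ‖x n‖ ^ p.toReal)).2 h1
      calc ∑' n : ℤ, ‖S (n + 1) (x (n + 1))‖ ^ p.toReal
          ≤ ∑' n : ℤ, C ^ p.toReal * ‖x (n + 1)‖ ^ p.toReal := by
            apply (shift_summable p hp S C hC x).tsum_le_tsum _ (h2.mul_left (C ^ p.toReal))
            intro n
            rw [← Real.mul_rpow hC0 (norm_nonneg _)]
            apply Real.rpow_le_rpow (norm_nonneg _) _ hp0.le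
            exact ((S (n + 1)).le_opNorm _).trans
              (mul_le_mul_of_nonneg_right (hC _) (norm_nonneg _))
        _ = C ^ p.toReal * ∑' n : ℤ, ‖x (n + 1)‖ ^ p.toReal := tsum_mul_left
        _ = C ^ p.toReal * ∑' n : ℤ, ‖x n‖ ^ p.toReal := by
            congr 1
            exact (Equiv.addRight (1 : ℤ)).tsum_eq (fun n : ℤ => ‖x n‖ ^ p.toReal)
        _ = (C * ‖x‖) ^ p.toReal := by
            rw [Real.mul_rpow hC0 (norm_nonneg _), lp.norm_rpow_eq_tsum hp0 x])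

theorem shiftOp_apply (hp : p ≠ ∞) (S : ℤ → X →L[𝕜] X) (C : ℝ) (hC : ∀ n, ‖S n‖ ≤ C)
    (x : lp (fun _ : ℤ => X) p) (n : ℤ) :
    shiftOp p hp S C hC x n = S (n + 1) (x (n + 1)) := rfl

theorem shiftOp_single (hp : p ≠ ∞) (S : ℤ → X →L[𝕜] X) (C : ℝ) (hC : ∀ n, ‖S n‖ ≤ C)
    (m : ℤ) (ξ : X) :
    shiftOp p hp S C hC (lp.single p m ξ) = lp.single p (m - 1) (S m ξ) := by
  ext n
  rw [shiftOp_apply]
  by_cases h : n = m - 1
  · subst h
    rw [sub_add_cancel, lp.single_apply_self, lp.single_apply_self]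
  · rw [lp.single_apply_ne p _ _ h, lp.single_apply_ne p _ _ (by omega : n + 1 ≠ m), map_zero]

/-- If `S m (J m) = J (m-1)` for all `m`, then `σ^n (δ_m J m) = δ_{m-n} J (m-n)`. -/
theorem shiftOp_pow_single (hp : p ≠ ∞) (S : ℤ → X →L[𝕜] X) (C : ℝ) (hC : ∀ n, ‖S n‖ ≤ C)
    (J : ℤ → X) (hJ : ∀ m, S m (J m) = J (m - 1)) (n : ℕ) (m : ℤ) :
    (shiftOp p hp S C hC ^ n) (lp.single p m (J m)) = lp.single p (m - n) (J (m - n)) := by
  induction n generalizing m with
  | zero => simp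
  | succ n ih =>
    rw [pow_succ, mul_apply_eq_comp, shiftOp_single, hJ, ih]
    have : m - 1 - (n : ℤ) = m - ((n + 1 : ℕ) : ℤ) := by push_cast; ring
    rw [this]

/-- Transport of functionals along the orbit. -/
theorem shiftOp_pow_functional (hp : p ≠ ∞) (S : ℤ → X →L[𝕜] X) (C : ℝ) (hC : ∀ n, ‖S n‖ ≤ C)
    (g : ℤ → X → 𝕜) (hg : ∀ m ξ, g (m - 1) (S m ξ) = g m ξ) (n : ℕ) (m : ℤ)
    (x : lp (fun _ : ℤ => X) p) :
    g m ((shiftOp p hp S C hC ^ n) x m) = g (m + n) (x (m + n)) := by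
  induction n generalizing m with
  | zero => simp
  | succ n ih =>
    rw [pow_succ', mul_apply_eq_comp, shiftOp_apply]
    have h1 := hg (m + 1) (((shiftOp p hp S C hC ^ n) x) (m + 1))
    rw [add_sub_cancel_right] at h1
    rw [h1, ih]
    have : m + 1 + (n : ℤ) = m + ((n + 1 : ℕ) : ℤ) := by push_cast; ring
    rw [this]

/-- For a point of period `N`, an invariant family of functionals is constant along `N ℤ`. -/
theorem periodic_functional (hp : p ≠ ∞) (S : ℤ → X →L[𝕜] X) (C : ℝ) (hC : ∀ n, ‖S n‖ ≤ C)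
    (g : ℤ → X → 𝕜) (hg : ∀ m ξ, g (m - 1) (S m ξ) = g m ξ) (N : ℕ)
    (x : lp (fun _ : ℤ => X) p) (hx : (shiftOp p hp S C hC ^ N) x = x) (j : ℕ) :
    g (j * N) (x (j * N)) = g 0 (x 0) := by
  induction j with
  | zero => simp
  | succ j ih =>
    have h := shiftOp_pow_functional p hp S C hC g hg N ((j : ℤ) * N) x
    rw [hx, ih] at h
    rw [h]
    have : ((j + 1 : ℕ) : ℤ) * (N : ℤ) = (j : ℤ) * N + N := by push_cast; ring
    rw [this]

end shift

end Pool.Agent.Lib.MP_7d5718_an
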