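import Pool.Agent.Lib.MP_7d5718_an.Data
import Pool.Agent.Lib.MP_7d5718_an.Shift
import Pool.Agent.Lib.MP_7d5718_an.Criterion

set_option autoImplicit false

namespace Pool.Agent.Lib.MP_7d5718_an

open scoped ENNReal
open Filter Topology

section norms

variable (𝕜 : Type*) [RCLike 𝕜]

theorem norm_vB_le (j : ℕ) (q : ℤ) : ‖vB 𝕜 j q‖ ≤ ome j q + chi j q * gam q := by
  unfold vB
  refine (norm_sub_le _ _).trans ?_
  rw [norm_ofReal_smul_f, norm_ofReal_smul_f, abs_of_pos (ome_pos j q),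
    abs_of_nonneg (mul_nonneg (chi_nonneg j q) (gam_pos q).le)]

theorem norm_vA_add_vB_le (j : ℕ) (q : ℤ) :
    ‖vA 𝕜 q + vB 𝕜 j q‖ ≤ (1 - chi j q) * gam q + ome j q := by
  have h : vA 𝕜 q + vB 𝕜 j q = (((1 - chi j q) * gam q : ℝ) : 𝕜) • f 𝕜 0 +
      ((ome j q : ℝ) : 𝕜) • f 𝕜 j := by
    unfold vA vB
    have e1 : (1 - chi j q) * gam q = gam q - chi j q * gam q := by ring
    rw [e1, RCLike.ofReal_sub, sub_smul]
    abel
  rw [h]
  refine (norm_add_le _ _).trans ?_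
  have h1 := chi_le_one j q
  rw [norm_ofReal_smul_f, norm_ofReal_smul_f, abs_of_pos (ome_pos j q),
    abs_of_nonneg (mul_nonneg (by linarith) (gam_pos q).le)]

end norms

section main

variable {𝕜 : Type*} [RCLike 𝕜] (p : ℝ≥0∞) [Fact (1 ≤ p)] (hp : p ≠ ∞)

/-- The space `ℓ_p(ℤ; ℓ^1)`. -/
noncomputable abbrev EE (𝕜 : Type*) [RCLike 𝕜] (p : ℝ≥0∞) := lp (fun _ : ℤ => E1 𝕜) p

/-- The shift operator of the counterexample. -/
noncomputable def sig : EE 𝕜 p →L[𝕜] EE 𝕜 p :=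
  shiftOp p hp (opS 𝕜) 8 (opS_norm 𝕜)

theorem p_pos : 0 < p := zero_lt_one.trans_le Fact.out

theorem sig_B (j : ℕ) (hj : j ≠ 0) (n : ℕ) (m : ℤ) :
    (sig (𝕜 := 𝕜) p hp ^ n) (lp.single p m (vB 𝕜 j m)) =
      lp.single p (m - n) (vB 𝕜 j (m - n)) :=
  shiftOp_pow_single p hp (opS 𝕜) 8 (opS_norm 𝕜) (vB 𝕜 j) (opS_vB 𝕜 j hj) n m

theorem sig_AB (j : ℕ) (hj : j ≠ 0) (n : ℕ) (m : ℤ) :
    (sig (𝕜 := 𝕜) p hp ^ n) (lp.single p m (vA 𝕜 m + vB 𝕜 j m)) =
      lp.single p (m - n) (vA 𝕜 (m - n) + vB 𝕜 j (m - n)) :=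
  shiftOp_pow_single p hp (opS 𝕜) 8 (opS_norm 𝕜) (fun k => vA 𝕜 k + vB 𝕜 j k)
    (fun k => by rw [map_add, opS_vA, opS_vB 𝕜 j hj]) n m

theorem reach_B (j : ℕ) (hj : j ≠ 0) (k : ℤ) :
    Reach (sig (𝕜 := 𝕜) p hp) (lp.single p k (vB 𝕜 j k)) := by
  intro ε hε
  set c := k.natAbs + en j with hc
  refine ⟨fun m => lp.single p (k + m) (vB 𝕜 j (k + m)), (1 + 2 ^ en j + 1) * 4 ^ c,
    by positivity, ?_, ?_⟩
  · intro m
    rw [sig_B p hp j hj]
    have : k + (m : ℤ) - m = k := by ring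
    rw [this, sub_self, norm_zero]
    exact hε.le
  · intro m n _
    rw [sig_B p hp j hj, lp.norm_single (p_pos p)]
    set q : ℤ := k + m - n with hq
    set b := (n - m) + (m - n) with hb
    refine (norm_vB_le 𝕜 j q).trans ?_
    have hse := st_le_en j
    have h1 : (1 / 4 : ℝ) ^ (q - st j).natAbs ≤ 4 ^ c * (1 / 4 : ℝ) ^ b :=
      pow4_le _ _ _ (by omega)
    have h2 : (1 / 4 : ℝ) ^ (q - en j).natAbs ≤ 4 ^ c * (1 / 4 : ℝ) ^ b :=
      pow4_le _ _ _ (by omega)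
    have h3 : chi j q * gam q ≤ 4 ^ c * (1 / 4 : ℝ) ^ b := by
      have h4 := gam_le_one q
      have h5 := (gam_pos q).le
      by_cases h : (st j : ℤ) ≤ q ∧ q ≤ en j
      · have e : chi j q = 1 := by unfold chi; rw [if_pos h]
        rw [e, one_mul]
        refine h4.trans ?_
        have := pow4_le 0 b c (by omega)
        simpa using this
      · have e : chi j q = 0 := by unfold chi; rw [if_neg h]
        rw [e, zero_mul]
        positivity
    unfold ome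
    have h4 := mul_le_mul_of_nonneg_left h2 (show (0 : ℝ) ≤ 2 ^ (en j) by positivity)
    have h5 : (1 + 2 ^ en j + 1) * 4 ^ c * (1 / 4 : ℝ) ^ b =
      4 ^ c * (1 / 4 : ℝ) ^ b + 2 ^ en j * (4 ^ c * (1 / 4 : ℝ) ^ b) +
        4 ^ c * (1 / 4 : ℝ) ^ b := by ring
    rw [h5]
    linarith

theorem reach_A (k : ℤ) : Reach (sig (𝕜 := 𝕜) p hp) (lp.single p k (vA 𝕜 k)) := by
  intro ε hε
  obtain ⟨L, hL⟩ := exists_pow_lt_of_lt_one (show 0 < ε / 2 by positivity)
    (by norm_num : (1 / 4 : ℝ) < 1)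
  set l := k.natAbs + L with hl
  set J : ℕ → ℕ := fun m => Nat.pair l (4 * m + 2 * k.natAbs + 2 * L + 1) with hJ
  set c := l + k.natAbs + 1 with hc
  have hJge : ∀ m, 4 * m + 2 * k.natAbs + 2 * L + 1 ≤ J m := fun m => Nat.right_le_pair _ _
  have hJ0 : ∀ m, J m ≠ 0 := fun m => by have := hJge m; omega
  have hst : ∀ m, st (J m) = l + 1 := fun m => by
    simp only [st, hJ, Nat.unpair_pair]
  have hen : ∀ m, en (J m) = J m + 1 := fun m => rfl
  refine ⟨fun m => lp.single p (k + m) (vA 𝕜 (k + m) + vB 𝕜 (J m) (k + m)), 3 * 4 ^ c,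
    by positivity, ?_, ?_⟩
  · intro m
    rw [sig_AB p hp (J m) (hJ0 m)]
    have e0 : k + (m : ℤ) - m = k := by ring
    rw [e0, ← lp.single_sub, add_sub_cancel_left, lp.norm_single (p_pos p)]
    refine (norm_vB_le 𝕜 (J m) k).trans ?_
    have h1 := hst m
    have h2 := hJge m
    have h3 := hen m
    have e : chi (J m) k = 0 := by
      unfold chi; rw [if_neg]; omega
    rw [e, zero_mul, add_zero]
    unfold ome
    have h4 : (1 / 4 : ℝ) ^ (k - st (J m)).natAbs ≤ (1 / 4 : ℝ) ^ L :=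
      pow_le_pow_of_le_one (by norm_num) (by norm_num) (by omega)
    have h5 := pow24_le (en (J m)) (k - en (J m)).natAbs L 0 (by omega)
    rw [pow_zero, one_mul] at h5
    linarith
  · intro m n _
    rw [sig_AB p hp (J m) (hJ0 m), lp.norm_single (p_pos p)]
    set q : ℤ := k + m - n with hq
    set b := (n - m) + (m - n) with hb
    refine (norm_vA_add_vB_le 𝕜 (J m) q).trans ?_
    have hst' := hst m
    have hJge' := hJge m
    have hen' := hen m
    have h1 : (1 / 4 : ℝ) ^ (q - st (J m)).natAbs ≤ 4 ^ c * (1 / 4 : ℝ) ^ b :=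
      pow4_le _ _ _ (by omega)
    have h2 : 2 ^ en (J m) * (1 / 4 : ℝ) ^ (q - en (J m)).natAbs ≤ 4 ^ c * (1 / 4 : ℝ) ^ b :=
      pow24_le _ _ _ _ (by omega)
    have h3 : (1 - chi (J m) q) * gam q ≤ 4 ^ c * (1 / 4 : ℝ) ^ b := by
      by_cases h : (st (J m) : ℤ) ≤ q ∧ q ≤ en (J m)
      · have e : chi (J m) q = 1 := by unfold chi; rw [if_pos h]
        rw [e, sub_self, zero_mul]
        positivity
      · have e : chi (J m) q = 0 := by unfold chi; rw [if_neg h]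
        rw [e, sub_zero, one_mul]
        unfold gam
        exact pow4_le _ _ _ (by omega)
    unfold ome
    have h5 : 3 * 4 ^ c * (1 / 4 : ℝ) ^ b =
      4 ^ c * (1 / 4 : ℝ) ^ b + 4 ^ c * (1 / 4 : ℝ) ^ b + 4 ^ c * (1 / 4 : ℝ) ^ b := by ring
    rw [h5]
    linarith

theorem reach_basis (k : ℤ) (i : ℕ) :
    Reach (sig (𝕜 := 𝕜) p hp) (lp.single p k (f 𝕜 i)) := by
  have h0 : Reach (sig (𝕜 := 𝕜) p hp) (lp.single p k (f 𝕜 0)) := by
    have h1 := (reach_A (𝕜 := 𝕜) p hp k).smul (((gam k)⁻¹ : ℝ) : 𝕜)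
    rw [← lp.single_smul] at h1
    unfold vA at h1
    rwa [smul_smul, ← RCLike.ofReal_mul, inv_mul_cancel₀ (gam_pos k).ne', RCLike.ofReal_one,
      one_smul] at h1
  rcases Nat.eq_zero_or_pos i with hi | hi
  · subst hi; exact h0
  · have hi' : i ≠ 0 := by omega
    have h1 := ((reach_B (𝕜 := 𝕜) p hp i hi' k).add
      (h0.smul ((chi i k * gam k : ℝ) : 𝕜))).smul (((ome i k)⁻¹ : ℝ) : 𝕜)
    rw [← lp.single_smul, ← lp.single_add, ← lp.single_smul] at h1
    unfold vB at h1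
    rwa [sub_add_cancel, smul_smul, ← RCLike.ofReal_mul, inv_mul_cancel₀ (ome_pos i k).ne',
      RCLike.ofReal_one, one_smul] at h1

/-- A closed subspace of `ℓ_p(ℤ; ℓ^1)` containing all `δ_k e_i` is everything. -/
theorem closed_sub_top (hp : p ≠ ∞) (V : Submodule 𝕜 (EE 𝕜 p)) (hV : IsClosed (V : Set (EE 𝕜 p)))
    (h : ∀ (k : ℤ) (i : ℕ), (lp.single p k (f 𝕜 i) : EE 𝕜 p) ∈ V) (x : EE 𝕜 p) : x ∈ V := by
  have h1 : ∀ (k : ℤ) (ξ : E1 𝕜), (lp.single p k ξ : EE 𝕜 p) ∈ V := by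
    intro k ξ
    have h2 := (hasSum_f ξ).mapL (lp.singleContinuousLinearMap 𝕜 (fun _ : ℤ => E1 𝕜) p k)
    refine hV.mem_of_tendsto h2 (Filter.Eventually.of_forall fun s => ?_)
    apply Submodule.sum_mem
    intro i _
    rw [map_smul]
    exact V.smul_mem _ (h k i)
  refine hV.mem_of_tendsto (lp.hasSum_single hp x) (Filter.Eventually.of_forall fun s => ?_)
  apply Submodule.sum_mem
  intro k _
  exact h1 k _

theorem reach_all (v : EE 𝕜 p) : Reach (sig (𝕜 := 𝕜) p hp) v :=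
  closed_sub_top p hp (reachSub (sig (𝕜 := 𝕜) p hp)) (reachSub_closed _)
    (fun k i => reach_basis p hp k i) v

theorem separable_EE (hp : p ≠ ∞) : TopologicalSpace.SeparableSpace (EE 𝕜 p) := by
  set V : Set (EE 𝕜 p) := Set.range (fun ki : ℤ × ℕ => (lp.single p ki.1 (f 𝕜 ki.2) : EE 𝕜 p))
  have h1 : TopologicalSpace.IsSeparable (Submodule.span 𝕜 V : Set (EE 𝕜 p)) :=
    (Set.countable_range _).isSeparable.span
  have h2 := h1.closure
  have h3 : closure (Submodule.span 𝕜 V : Set (EE 𝕜 p)) = Set.univ := by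
    rw [Set.eq_univ_iff_forall]
    intro x
    rw [← Submodule.topologicalClosure_coe]
    apply closed_sub_top p hp (Submodule.span 𝕜 V).topologicalClosure
      (Submodule.isClosed_topologicalClosure _)
    intro k i
    exact Submodule.le_topologicalClosure _ (Submodule.subset_span ⟨(k, i), rfl⟩)
  rw [h3] at h2
  exact TopologicalSpace.isSeparable_univ_iff.1 h2

theorem sig_fhc : FrequentlyHypercyclic (sig (𝕜 := 𝕜) p hp : EE 𝕜 p → EE 𝕜 p) := by
  have := separable_EE (𝕜 := 𝕜) p hp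
  exact fhc_of_reach (sig (𝕜 := 𝕜) p hp) (reach_all p hp)

/-- Norms of the coordinates of a vector tend to zero along `N ℤ`. -/
theorem tendsto_coord_norm (hp : p ≠ ∞) (x : EE 𝕜 p) (N : ℕ) (hN : 1 ≤ N) :
    Tendsto (fun j : ℕ => ‖x ((j : ℤ) * N)‖) atTop (𝓝 0) := by
  have hp0 := toReal_pos' p hp
  have h1 : Summable (fun n : ℤ => ‖x n‖ ^ p.toReal) := (lp.memℓp x).summable hp0
  have hinj : Function.Injective (fun j : ℕ => (j : ℤ) * N) := by
    intro a b hab
    simp only at hab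
    have : (N : ℤ) ≠ 0 := by omega
    exact_mod_cast mul_right_cancel₀ this hab
  have h2 := (h1.comp_injective hinj).tendsto_atTop_zero
  rw [Metric.tendsto_atTop] at h2 ⊢
  intro ε hε
  obtain ⟨n0, hn0⟩ := h2 (ε ^ p.toReal) (Real.rpow_pos_of_pos hε _)
  refine ⟨n0, fun n hn => ?_⟩
  have h3 := hn0 n hn
  simp only [Function.comp_apply, dist_zero_right, Real.norm_eq_abs] at h3 ⊢
  rw [abs_of_nonneg (by positivity)] at h3
  rw [abs_of_nonneg (norm_nonneg _)]
  exact (Real.rpow_lt_rpow_iff (norm_nonneg _) hε.le hp0).1 h3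

theorem periodic_zero (x : EE 𝕜 p) (N : ℕ) (hN : 1 ≤ N)
    (hx : (sig (𝕜 := 𝕜) p hp ^ N) x = x) : x 0 0 = 0 := by
  set M := ‖x‖ with hM
  -- invariant functional
  have hG : ∀ j : ℕ, GF 𝕜 (j * N) (x (j * N)) = x 0 0 := by
    intro j
    have := periodic_functional p hp (opS 𝕜) 8 (opS_norm 𝕜) (fun n ξ => GF 𝕜 n ξ)
      (fun n ξ => GF_S 𝕜 n ξ) N x hx j
    rw [this, GF_zero]
  have hc : ∀ (i : ℕ), i ≠ 0 → ∀ j : ℕ,
      coord i (x (j * N)) / ((ome i (j * N) : ℝ) : 𝕜) = coord i (x 0) / ((ome i 0 : ℝ) : 𝕜) := by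
    intro i hi j
    exact periodic_functional p hp (opS 𝕜) 8 (opS_norm 𝕜)
      (fun n ξ => coord i ξ / ((ome i n : ℝ) : 𝕜)) (fun n ξ => coord_S 𝕜 n i hi ξ) N x hx j
  have hxn : ∀ n : ℤ, ‖x n‖ ≤ M := fun n =>
    lp.norm_apply_le_norm (p_pos p).ne' x n
  -- the bound on the constants
  have hv : ∀ i : ℕ, i ≠ 0 → ‖coord i (x 0) / ((ome i 0 : ℝ) : 𝕜)‖ ≤
      (M * 4 ^ N) * (1 / 2 : ℝ) ^ i := by
    intro i hi
    rw [← hc i hi (en i / N), norm_div, RCLike.norm_ofReal, abs_of_pos (ome_pos _ _),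
      div_le_iff₀ (ome_pos _ _)]
    have h1 : ‖coord i (x ((en i / N : ℕ) * N))‖ ≤ M := by
      rw [coord_apply]
      exact (norm_coord_le _ i).trans (hxn _)
    refine h1.trans ?_
    have hdm : en i / N * N ≤ en i := Nat.div_mul_le_self _ _
    have hdm2 : en i < en i / N * N + N := Nat.lt_div_mul_add (by omega)
    have h2 : (((en i / N : ℕ) : ℤ) * N - en i).natAbs ≤ N := by
      have : ((en i / N : ℕ) : ℤ) * N = ((en i / N * N : ℕ) : ℤ) := by push_cast; ring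
      rw [this]
      omega
    have h3 : (2 : ℝ) ^ en i * (1 / 4) ^ N ≤ ome i (((en i / N : ℕ) : ℤ) * N) := by
      unfold ome
      have h4 : (1 / 4 : ℝ) ^ N ≤ (1 / 4 : ℝ) ^ (((en i / N : ℕ) : ℤ) * N - en i).natAbs :=
        pow_le_pow_of_le_one (by norm_num) (by norm_num) h2
      have h5 := mul_le_mul_of_nonneg_left h4 (show (0 : ℝ) ≤ 2 ^ (en i) by positivity)
      have h6 : (0 : ℝ) ≤ (1 / 4) ^ (((en i / N : ℕ) : ℤ) * N - st i).natAbs := by positivity
      linarith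
    have h7 : (1 : ℝ) ≤ (4 ^ N * (1 / 2 : ℝ) ^ i) * ((2 : ℝ) ^ en i * (1 / 4) ^ N) := by
      have e1 : (4 : ℝ) ^ N * (1 / 4) ^ N = 1 := by rw [← mul_pow]; norm_num
      have e2 : (2 : ℝ) ^ i * (1 / 2 : ℝ) ^ i = 1 := by rw [← mul_pow]; norm_num
      have e3 : (2 : ℝ) ^ en i = 2 ^ i * 2 := by unfold en; rw [pow_succ]
      rw [e3]
      have e4 : (4 ^ N * (1 / 2 : ℝ) ^ i) * ((2 : ℝ) ^ i * 2 * (1 / 4) ^ N) =
        (4 ^ N * (1 / 4) ^ N) * (2 ^ i * (1 / 2 : ℝ) ^ i) * 2 := by ring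
      rw [e4, e1, e2]
      norm_num
    have hM0 : 0 ≤ M := norm_nonneg _
    calc M = M * 1 := (mul_one M).symm
      _ ≤ M * ((4 ^ N * (1 / 2 : ℝ) ^ i) * ((2 : ℝ) ^ en i * (1 / 4) ^ N)) :=
          mul_le_mul_of_nonneg_left h7 hM0
      _ = (M * 4 ^ N * (1 / 2 : ℝ) ^ i) * ((2 : ℝ) ^ en i * (1 / 4) ^ N) := by ring
      _ ≤ (M * 4 ^ N * (1 / 2 : ℝ) ^ i) * ome i (((en i / N : ℕ) : ℤ) * N) :=
          mul_le_mul_of_nonneg_left h3 (by positivity)
  have hlim : Tendsto (fun j : ℕ => GF 𝕜 (j * N) (x (j * N))) atTop (𝓝 0) := by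
    have h1 : (fun j : ℕ => GF 𝕜 (j * N) (x (j * N))) =
        fun j : ℕ => ∑' i, (x (j * N) i) • vG 𝕜 (j * N) i := by
      ext j; rfl
    have h0 : (0 : 𝕜) = ∑' i : ℕ, (0 : 𝕜) := by simp
    rw [h1, h0]
    apply tendsto_tsum_of_dominated_convergence
      (bound := fun i : ℕ => (M * 4 ^ N) * (1 / 2 : ℝ) ^ i)
    · exact (summable_geometric_of_lt_one (by norm_num) (by norm_num)).mul_left _
    · intro i
      rcases Nat.eq_zero_or_pos i with hi | hi
      · subst hi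
        apply squeeze_zero_norm (a := fun j : ℕ => ‖x ((j : ℤ) * N)‖)
        · intro j
          have : vG 𝕜 ((j : ℤ) * N) 0 = 1 := by
            unfold vG
            rw [if_pos rfl, gam_nonneg_eq _ (by positivity)]
            simp
          rw [this, smul_eq_mul, mul_one]
          exact norm_coord_le _ 0
        · exact tendsto_coord_norm p hp x N hN
      · apply Tendsto.congr' _ tendsto_const_nhds
        filter_upwards [eventually_gt_atTop (en i)] with j hj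
        have : vG 𝕜 ((j : ℤ) * N) i = 0 := by
          unfold vG
          rw [if_neg (by omega)]
          have h2 : chi i ((j : ℤ) * N) = 0 := by
            unfold chi
            rw [if_neg]
            intro h3
            have h4 : (j : ℤ) * 1 ≤ (j : ℤ) * N :=
              mul_le_mul_of_nonneg_left (by exact_mod_cast hN) (by positivity)
            omega
          rw [h2]; simp
        rw [this, smul_zero]
    · apply Filter.Eventually.of_forall
      intro j i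
      rcases Nat.eq_zero_or_pos i with hi | hi
      · subst hi
        have : vG 𝕜 ((j : ℤ) * N) 0 = 1 := by
          unfold vG
          rw [if_pos rfl, gam_nonneg_eq _ (by positivity)]
          simp
        rw [this, smul_eq_mul, mul_one, pow_zero, mul_one]
        refine (norm_coord_le _ 0).trans ((hxn _).trans ?_)
        have h4 : (1 : ℝ) ≤ 4 ^ N := one_le_pow₀ (by norm_num)
        have hM0 : 0 ≤ M := norm_nonneg _
        nlinarith
      · have hi' : i ≠ 0 := by omega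
        refine le_trans ?_ (hv i hi')
        rw [← hc i hi' j, coord_apply]
        unfold vG
        rw [if_neg hi', smul_eq_mul, norm_mul, norm_div, RCLike.norm_ofReal, RCLike.norm_ofReal,
          abs_of_pos (ome_pos _ _), abs_div, abs_of_pos (ome_pos _ _),
          abs_of_nonneg (chi_nonneg _ _), mul_div_assoc']
        apply div_le_div_of_nonneg_right _ (ome_pos _ _).le
        exact mul_le_of_le_one_right (norm_nonneg _) (chi_le_one _ _)
  have hconst : (fun j : ℕ => GF 𝕜 (j * N) (x (j * N))) = fun _ => x 0 0 := by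
    ext j; exact hG j
  rw [hconst] at hlim
  exact tendsto_nhds_unique tendsto_const_nhds hlim

theorem sig_not_chaotic : ¬ DevaneyChaotic (sig (𝕜 := 𝕜) p hp : EE 𝕜 p → EE 𝕜 p) := by
  rintro ⟨_, hd⟩
  set Z : Set (EE 𝕜 p) := {x | x 0 0 = 0} with hZ
  have hZc : IsClosed Z := by
    have hcont : Continuous (fun x : EE 𝕜 p => (coord 0 (x 0) : 𝕜)) :=
      (coord (𝕜 := 𝕜) 0).continuous.comp (lp.lipschitzWith_one_eval p (0 : ℤ)).continuous
    have : Z = (fun x : EE 𝕜 p => (coord 0 (x 0) : 𝕜)) ⁻¹' {0} := by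
      ext x
      simp only [hZ, Set.mem_ofPred_eq, Set.mem_preimage, Set.mem_singleton_iff, coord_apply]
    rw [this]
    exact isClosed_singleton.preimage hcont
  have hsub : {x : EE 𝕜 p | ∃ k : ℕ, 1 ≤ k ∧
      (sig (𝕜 := 𝕜) p hp : EE 𝕜 p → EE 𝕜 p)^[k] x = x} ⊆ Z := by
    rintro x ⟨k, hk, hx⟩
    rw [← FunLike.coe_pow_eq_iterate] at hx
    exact periodic_zero p hp x k hk hx
  have h1 : Z = Set.univ := by
    rw [← hZc.closure_eq]
    exact (hd.mono hsub).closure_eq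
  have h2 : (lp.single p (0 : ℤ) (f 𝕜 0) : EE 𝕜 p) ∈ Z := by rw [h1]; trivial
  have h3 : (lp.single p (0 : ℤ) (f 𝕜 0) : EE 𝕜 p) 0 0 = 0 := h2
  rw [lp.single_apply_self, f_apply, if_pos rfl] at h3
  exact one_ne_zero h3

end main

end Pool.Agent.Lib.MP_7d5718_an
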